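import Pool.Agent.Helper73.BP.Slack

/-!
# A start along good edges from one inequality per colour
-/

set_option autoImplicit false
set_option linter.unusedSectionVars false

namespace Pool.Agent.Helper73.BP

open Pool.Agent.Helper28.BPack Pool.Agent.Helper61.Motz Pool.Agent.Helper38.Thick

/-- Two levels by one application of Hall's theorem.  Users `X`, rows `K`, planes `Q`; `inc z` are
the rows which the user `z` may take, `adj k` the planes which the row `k` may take. -/
theorem two_level {X K Q : Type} [Fintype X] [DecidableEq X] [Fintype K] [DecidableEq K]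
    [DecidableEq Q] (inc : X → Finset K) (adj : K → Finset Q)
    (h : ∀ (Y : Finset X) (R : Finset K),
      Y.card ≤ (Y.biUnion inc \ R).card + (R.biUnion adj).card) :
    ∃ (k : X → K) (H : X → Q), Function.Injective k ∧ Function.Injective H ∧
      (∀ x, k x ∈ inc x) ∧ (∀ x, H x ∈ adj (k x)) := by
  classical
  set t : X ⊕ K → Finset (K ⊕ Q) := fun v => match v with
    | Sum.inl x => (inc x).map ⟨Sum.inl, Sum.inl_injective⟩
    | Sum.inr k => insert (Sum.inl k) ((adj k).map ⟨Sum.inr, Sum.inr_injective⟩) with ht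
  have hall : ∀ s : Finset (X ⊕ K), s.card ≤ (s.biUnion t).card := by
    intro s
    set Y := s.toLeft with hY
    set R := s.toRight with hR
    have h1 : s.card = Y.card + R.card := (Finset.card_toLeft_add_card_toRight).symm
    have h2 : (Y.biUnion inc ∪ R).disjSum (R.biUnion adj) ⊆ s.biUnion t := by
      intro v hv
      rw [Finset.mem_disjSum] at hv
      rw [Finset.mem_biUnion]
      rcases hv with ⟨k, hk, rfl⟩ | ⟨q, hq, rfl⟩
      · rw [Finset.mem_union] at hk
        rcases hk with hk | hk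
        · obtain ⟨x, hx, hxk⟩ := Finset.mem_biUnion.mp hk
          refine ⟨Sum.inl x, Finset.mem_toLeft.mp hx, ?_⟩
          simp only [ht, Finset.mem_map, Function.Embedding.coeFn_mk]
          exact ⟨k, hxk, rfl⟩
        · refine ⟨Sum.inr k, Finset.mem_toRight.mp hk, ?_⟩
          simp only [ht]
          exact Finset.mem_insert_self _ _
      · obtain ⟨k, hk, hkq⟩ := Finset.mem_biUnion.mp hq
        refine ⟨Sum.inr k, Finset.mem_toRight.mp hk, ?_⟩
        simp only [ht]
        refine Finset.mem_insert_of_mem ?_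
        simp only [Finset.mem_map, Function.Embedding.coeFn_mk]
        exact ⟨q, hkq, rfl⟩
    have h3 := Finset.card_le_card h2
    rw [Finset.card_disjSum] at h3
    have h4 := h Y R
    have h5 : (Y.biUnion inc ∪ R).card = (Y.biUnion inc \ R).card + R.card :=
      (Finset.card_sdiff_add_card (Y.biUnion inc) R).symm
    omega
  obtain ⟨f, hf, hft⟩ := (Finset.all_card_le_biUnion_card_iff_exists_injective _).mp hall
  have h1 : ∀ x : X, ∃ k ∈ inc x, f (Sum.inl x) = Sum.inl k := by
    intro x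
    have := hft (Sum.inl x)
    simp only [ht, Finset.mem_map, Function.Embedding.coeFn_mk] at this
    obtain ⟨k, hk, e⟩ := this
    exact ⟨k, hk, e.symm⟩
  choose k hk1 hk2 using h1
  have h2 : ∀ x : X, ∃ q ∈ adj (k x), f (Sum.inr (k x)) = Sum.inr q := by
    intro x
    have h3 := hft (Sum.inr (k x))
    simp only [ht] at h3
    rw [Finset.mem_insert] at h3
    rcases h3 with h3 | h3
    · have := hf (h3.trans (hk2 x).symm)
      cases this
    · simp only [Finset.mem_map, Function.Embedding.coeFn_mk] at h3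
      obtain ⟨q, hq, e⟩ := h3
      exact ⟨q, hq, e.symm⟩
  choose H hH1 hH2 using h2
  refine ⟨k, H, ?_, ?_, hk1, hH1⟩
  · intro x y e
    have : f (Sum.inl x) = f (Sum.inl y) := by rw [hk2, hk2, e]
    exact Sum.inl_injective (hf this)
  · intro x y e
    have h3 : f (Sum.inr (k x)) = f (Sum.inr (k y)) := by rw [hH2, hH2, e]
    have h4 : k x = k y := Sum.inr_injective (hf h3)
    have h5 : f (Sum.inl x) = f (Sum.inl y) := by rw [hk2, hk2, h4]
    exact Sum.inl_injective (hf h5)

variable {L : Type} [Lattice L] [BoundedOrder L] [Finite L] [IsUpperModularLattice L]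

/-- **Start along good edges.**  `ρ P` is the special point of the plane `P` over `u`; a row
`x ⊔ c` is ordinary if it does not contain the special point of its group.  Hypothesis `hK`: for
every colour `c` and every set `S` of ordinary rows of colour `c` the number of users on the rows
of `S` is at most `|u| - 1` times the number of good planes over rows of `S`. -/
theorem start_good {A R : Finset L} {u : L} {ρ : L → L} {adj : L → Finset L}
    [DecidableEq L] [DecidableRel (α := L) (· ≤ ·)]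
    (hA : ∀ a ∈ A, IsAtom a) (hu : rk u = 2) (hU : 2 ≤ (A.filter (· ≤ u)).card)
    (hmax : ∀ k, rk k = 2 → (∃ c ∈ A, c ≤ u ∧ c ≤ k) →
      (A.filter (· ≤ k)).card ≤ (A.filter (· ≤ u)).card)
    (hR : ∀ x ∈ R, x ∈ A ∧ ¬ x ≤ u ∧ IsAtom (ρ (u ⊔ x)) ∧ ρ (u ⊔ x) ≠ x)
    (hadj : ∀ k, ∀ H ∈ adj k, k ≤ H ∧ ¬ u ≤ H)
    (hK : ∀ c ∈ A, c ≤ u → ∀ S : Finset L,
      (∀ k ∈ S, ∃ x ∈ R, ¬ ρ (u ⊔ x) ≤ x ⊔ c ∧ k = x ⊔ c) →
      (R.filter (fun x => x ⊔ c ∈ S)).card
        ≤ ((A.filter (· ≤ u)).card - 1) * (S.biUnion adj).card) :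
    ∃ (c : L → L) (H : L → L),
      (∀ x ∈ R, c x ∈ A ∧ c x ≤ u ∧ ¬ ρ (u ⊔ x) ≤ x ⊔ c x) ∧
      (∀ x ∈ R, ∀ y ∈ R, x ⊔ c x = y ⊔ c y → x = y) ∧
      (∀ x ∈ R, H x ∈ adj (x ⊔ c x)) ∧
      (∀ x ∈ R, ∀ y ∈ R, H x = H y → x = y) := by
  classical
  have : Fintype L := Fintype.ofFinite L
  set U := A.filter (· ≤ u) with hUdef
  have hmU : ∀ c, c ∈ U ↔ c ∈ A ∧ c ≤ u := fun c => by simp [hUdef]
  have hne : ∀ x ∈ R, ∀ c ∈ U, x ≠ c := by
    rintro x hx c hc rfl
    exact (hR x hx).2.1 ((hmU x).mp hc).2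
  have hrk : ∀ x ∈ R, ∀ c ∈ U, rk (x ⊔ c) = 2 := fun x hx c hc =>
    rk_line (hA x (hR x hx).1) (hA c ((hmU c).mp hc).1) (hne x hx c hc)
  -- one colour per row
  have hcol : ∀ x ∈ R, ∀ c ∈ U, ∀ c' ∈ U, c' ≤ x ⊔ c → c = c' := by
    intro x hx c hc c' hc' h
    by_contra hcc
    have hcU := (hmU c).mp hc
    have hcU' := (hmU c').mp hc'
    have h1 := line_two (hA c hcU.1) (hA c' hcU'.1) hcc (le_sup_right : c ≤ x ⊔ c) h
      (hrk x hx c hc) hcU.2 hcU'.2 hu
    exact (hR x hx).2.1 (h1 ▸ le_sup_left)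
  have hrow : ∀ x ∈ R, ∀ y ∈ R, ∀ c ∈ U, y ≤ x ⊔ c → y ⊔ c = x ⊔ c :=
    fun x hx y hy c hc h =>
      line_of (hA y (hR y hy).1) (hA c ((hmU c).mp hc).1) (hne y hy c hc) h le_sup_right
        (hrk x hx c hc)
  -- the ordinary rows of a user
  let X := {x : L // x ∈ R}
  let inc : X → Finset L := fun x => (U.image (fun c => x.1 ⊔ c)).filter
    (fun k => ¬ ρ (u ⊔ x.1) ≤ k)
  have hinc : ∀ (x : X) (k : L), k ∈ inc x ↔ (∃ c ∈ U, x.1 ⊔ c = k) ∧ ¬ ρ (u ⊔ x.1) ≤ k :=
    fun x k => by simp only [inc, Finset.mem_filter, Finset.mem_image]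
  have hinj : ∀ x ∈ R, Set.InjOn (fun c => x ⊔ c) (U : Set L) := by
    intro x hx c hc c' hc' e
    exact hcol x hx c hc c' hc' (by change c' ≤ (fun c => x ⊔ c) c; rw [e]; exact le_sup_right)
  have hdeg : ∀ x : X, U.card - 1 ≤ (inc x).card := by
    intro x
    have hx := x.2
    have h1 : (U.image (fun c => x.1 ⊔ c)).card = U.card :=
      Finset.card_image_of_injOn (hinj x.1 hx)
    have h2 : ((U.image (fun c => x.1 ⊔ c)).filter (fun k => ρ (u ⊔ x.1) ≤ k)).card ≤ 1 := by
      rw [Finset.card_le_one]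
      intro k hk l hl
      rw [Finset.mem_filter, Finset.mem_image] at hk hl
      obtain ⟨⟨c, hc, rfl⟩, hrk1⟩ := hk
      obtain ⟨⟨c', hc', rfl⟩, hrl1⟩ := hl
      obtain ⟨-, -, hρ, hρx⟩ := hR x.1 hx
      exact line_two (hA x.1 (hR x.1 hx).1) hρ hρx.symm le_sup_left hrk1 (hrk x.1 hx c hc)
        le_sup_left hrl1 (hrk x.1 hx c' hc')
    have h3 := Finset.card_filter_add_card_filter_not (s := U.image (fun c => x.1 ⊔ c))
      (fun k => ρ (u ⊔ x.1) ≤ k)
    have h4 : (inc x).card =
        ((U.image (fun c => x.1 ⊔ c)).filter (fun k => ¬ ρ (u ⊔ x.1) ≤ k)).card := rfl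
    omega
  have hcod : ∀ (k : L) (Y : Finset X), (Y.filter (fun x => k ∈ inc x)).card ≤ U.card - 1 := by
    intro k Y
    rcases (Y.filter (fun x => k ∈ inc x)).eq_empty_or_nonempty with h0 | ⟨x0, hx0⟩
    · rw [h0, Finset.card_empty]
      exact Nat.zero_le _
    · rw [Finset.mem_filter, hinc] at hx0
      obtain ⟨-, ⟨c0, hc0, hk0⟩, -⟩ := hx0
      have hc0' := (hmU c0).mp hc0
      have hk2 : rk k = 2 := hk0 ▸ hrk x0.1 x0.2 c0 hc0
      have hc0k : c0 ≤ k := hk0 ▸ le_sup_right
      have h1 := hmax k hk2 ⟨c0, hc0'.1, hc0'.2, hc0k⟩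
      have hsub : insert c0 ((Y.filter (fun x => k ∈ inc x)).image Subtype.val)
          ⊆ A.filter (· ≤ k) := by
        intro z hz
        rw [Finset.mem_insert, Finset.mem_image] at hz
        rw [Finset.mem_filter]
        rcases hz with rfl | ⟨x, hx, rfl⟩
        · exact ⟨hc0'.1, hc0k⟩
        · rw [Finset.mem_filter, hinc] at hx
          obtain ⟨-, ⟨c, -, hxk⟩, -⟩ := hx
          exact ⟨(hR x.1 x.2).1, hxk ▸ le_sup_left⟩
      have hnot : c0 ∉ (Y.filter (fun x => k ∈ inc x)).image Subtype.val := by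
        intro h
        obtain ⟨x, -, e⟩ := Finset.mem_image.mp h
        exact (hR x.1 x.2).2.1 (e ▸ hc0'.2)
      have h2 := Finset.card_le_card hsub
      rw [Finset.card_insert_of_notMem hnot, Finset.card_image_of_injective _ Subtype.val_injective]
        at h2
      omega
  obtain ⟨kk, H, hk1, hk2, hk3, hk4⟩ := two_level inc adj (by
    intro Y R0
    set N := Y.biUnion inc with hN
    have hU1 : 0 < U.card - 1 := by omega
    -- count the incidences
    have h1 : (U.card - 1) * Y.card ≤ ∑ k ∈ N, (Y.filter (fun x => k ∈ inc x)).card := by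
      calc (U.card - 1) * Y.card = ∑ _x ∈ Y, (U.card - 1) := by
            rw [Finset.sum_const, smul_eq_mul, mul_comm]
        _ ≤ ∑ x ∈ Y, (inc x).card := Finset.sum_le_sum fun x _ => hdeg x
        _ = ∑ x ∈ Y, (N.filter (fun k => k ∈ inc x)).card := by
            refine Finset.sum_congr rfl fun x hx => ?_
            congr 1
            apply Finset.ext
            intro k
            constructor
            · intro h
              exact Finset.mem_filter.mpr ⟨Finset.mem_biUnion.mpr ⟨x, hx, h⟩, h⟩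
            · intro h
              exact (Finset.mem_filter.mp h).2
        _ = ∑ k ∈ N, (Y.filter (fun x => k ∈ inc x)).card := by
            simp only [Finset.card_filter]
            exact Finset.sum_comm
    have h2 : ∑ k ∈ N, (Y.filter (fun x => k ∈ inc x)).card =
        ∑ k ∈ N \ R0, (Y.filter (fun x => k ∈ inc x)).card +
        ∑ k ∈ N ∩ R0, (Y.filter (fun x => k ∈ inc x)).card := by
      rw [add_comm, ← Finset.sum_inter_add_sum_sdiff N R0]
    have h3 : ∑ k ∈ N \ R0, (Y.filter (fun x => k ∈ inc x)).card ≤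
        (U.card - 1) * (N \ R0).card := by
      calc _ ≤ ∑ _k ∈ N \ R0, (U.card - 1) := Finset.sum_le_sum fun k _ => hcod k Y
        _ = _ := by rw [Finset.sum_const, smul_eq_mul, mul_comm]
    -- the rows of `N ∩ R0`, colour by colour
    let SC : L → Finset L := fun c => (N ∩ R0).filter (fun k => c ≤ k)
    have hSC : ∀ c k, k ∈ SC c ↔ (k ∈ N ∧ k ∈ R0) ∧ c ≤ k := fun c k => by
      simp only [SC, Finset.mem_filter, Finset.mem_inter]
    have hNk : ∀ k ∈ N, ∃ x ∈ R, ∃ c ∈ U, ¬ ρ (u ⊔ x) ≤ k ∧ k = x ⊔ c := by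
      intro k hk
      obtain ⟨x, -, hx⟩ := Finset.mem_biUnion.mp hk
      obtain ⟨⟨c, hc, e⟩, hn⟩ := (hinc x k).mp hx
      exact ⟨x.1, x.2, c, hc, hn, e.symm⟩
    have h4 : ∀ c ∈ U, ∑ k ∈ SC c, (Y.filter (fun x => k ∈ inc x)).card ≤
        (U.card - 1) * ((SC c).biUnion adj).card := by
      intro c hc
      have hcU := (hmU c).mp hc
      have hkc : ∀ k ∈ SC c, ∃ x ∈ R, ¬ ρ (u ⊔ x) ≤ x ⊔ c ∧ k = x ⊔ c := by
        intro k hk
        obtain ⟨⟨hkN, -⟩, hck⟩ := (hSC c k).mp hk
        obtain ⟨x, hx, c', hc', hn, e⟩ := hNk k hkN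
        have e2 : c' = c := hcol x hx c' hc' c hc (e ▸ hck)
        subst e2
        exact ⟨x, hx, e ▸ hn, e⟩
      refine le_trans ?_ (hK c hcU.1 hcU.2 (SC c) hkc)
      calc ∑ k ∈ SC c, (Y.filter (fun x => k ∈ inc x)).card
          ≤ ∑ k ∈ SC c, (R.filter (fun x => x ⊔ c = k)).card := by
            refine Finset.sum_le_sum fun k hk => ?_
            rw [← Finset.card_image_of_injective _ Subtype.val_injective]
            refine Finset.card_le_card ?_
            intro z hz
            obtain ⟨x, hx, rfl⟩ := Finset.mem_image.mp hz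
            rw [Finset.mem_filter, hinc] at hx
            obtain ⟨-, ⟨c', hc', e⟩, -⟩ := hx
            have hck := ((hSC c k).mp hk).2
            have e2 : c' = c := hcol x.1 x.2 c' hc' c hc (e ▸ hck)
            subst e2
            exact Finset.mem_filter.mpr ⟨x.2, e⟩
        _ = (R.filter (fun x => x ⊔ c ∈ SC c)).card := by
            rw [Finset.card_eq_sum_card_fiberwise (f := fun x => x ⊔ c) (t := SC c)
              (s := R.filter (fun x => x ⊔ c ∈ SC c))
              (fun x hx => (Finset.mem_filter.mp hx).2)]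
            refine Finset.sum_congr rfl fun k hk => ?_
            congr 1
            ext x
            simp only [Finset.mem_filter]
            constructor
            · rintro ⟨hx, e⟩
              exact ⟨⟨hx, e ▸ hk⟩, e⟩
            · rintro ⟨⟨hx, -⟩, e⟩
              exact ⟨hx, e⟩
    have h5 : N ∩ R0 = U.biUnion SC := by
      apply Finset.ext
      intro k
      constructor
      · intro hk0
        obtain ⟨hk, hk'⟩ := Finset.mem_inter.mp hk0
        obtain ⟨x, hx, c, hc, -, e⟩ := hNk k hk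
        exact Finset.mem_biUnion.mpr ⟨c, hc, (hSC c k).mpr ⟨⟨hk, hk'⟩, e ▸ le_sup_right⟩⟩
      · intro hk0
        obtain ⟨c, -, hk⟩ := Finset.mem_biUnion.mp hk0
        exact Finset.mem_inter.mpr ((hSC c k).mp hk).1
    have h6 : ∑ k ∈ N ∩ R0, (Y.filter (fun x => k ∈ inc x)).card =
        ∑ c ∈ U, ∑ k ∈ SC c, (Y.filter (fun x => k ∈ inc x)).card := by
      conv_lhs => rw [h5]
      refine Finset.sum_biUnion ?_
      intro c hc c' hc' hcc
      rw [Function.onFun, Finset.disjoint_left]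
      intro k hk hk'
      obtain ⟨⟨hkN, -⟩, h7⟩ := (hSC c k).mp hk
      obtain ⟨-, h8⟩ := (hSC c' k).mp hk'
      obtain ⟨x, hx, d, hd, -, e⟩ := hNk k hkN
      exact hcc ((hcol x hx d hd c hc (e ▸ h7)).symm.trans (hcol x hx d hd c' hc' (e ▸ h8)))
    have h7 : ∑ c ∈ U, ((SC c).biUnion adj).card ≤ (R0.biUnion adj).card := by
      rw [← Finset.card_biUnion]
      · refine Finset.card_le_card ?_
        intro q hq
        obtain ⟨c, -, hq⟩ := Finset.mem_biUnion.mp hq
        obtain ⟨k, hk, hkq⟩ := Finset.mem_biUnion.mp hq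
        exact Finset.mem_biUnion.mpr ⟨k, ((hSC c k).mp hk).1.2, hkq⟩
      · intro c hc c' hc' hcc
        rw [Function.onFun, Finset.disjoint_left]
        intro q hq hq'
        obtain ⟨k, hk, hkq⟩ := Finset.mem_biUnion.mp hq
        obtain ⟨k', hk', hkq'⟩ := Finset.mem_biUnion.mp hq'
        obtain ⟨-, h8⟩ := (hSC c k).mp hk
        obtain ⟨-, h9⟩ := (hSC c' k').mp hk'
        obtain ⟨a1, a2⟩ := hadj k q hkq
        obtain ⟨b1, -⟩ := hadj k' q hkq'
        have f1 := (hmU c).mp hc
        have f2 := (hmU c').mp hc'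
        have g : c ⊔ c' = u := line_of (hA c f1.1) (hA c' f2.1) hcc f1.2 f2.2 hu
        exact a2 (g ▸ sup_le (h8.trans a1) (h9.trans b1))
    have h8 : (U.card - 1) * Y.card ≤
        (U.card - 1) * ((N \ R0).card + (R0.biUnion adj).card) := by
      calc (U.card - 1) * Y.card ≤ _ := h1
        _ = _ := h2
        _ ≤ (U.card - 1) * (N \ R0).card +
            ∑ c ∈ U, (U.card - 1) * ((SC c).biUnion adj).card := by
            rw [h6]
            exact Nat.add_le_add h3 (Finset.sum_le_sum h4)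
        _ = (U.card - 1) * (N \ R0).card +
            (U.card - 1) * ∑ c ∈ U, ((SC c).biUnion adj).card := by rw [Finset.mul_sum]
        _ ≤ (U.card - 1) * (N \ R0).card + (U.card - 1) * (R0.biUnion adj).card :=
            Nat.add_le_add_left (Nat.mul_le_mul_left _ h7) _
        _ = _ := by ring
    exact Nat.le_of_mul_le_mul_left h8 hU1)
  have hex : ∀ x : X, ∃ c ∈ U, x.1 ⊔ c = kk x := fun x => ((hinc x _).mp (hk3 x)).1
  choose g hgU hgf using hex
  refine ⟨fun x => if h : x ∈ R then g ⟨x, h⟩ else x, fun x => if h : x ∈ R then H ⟨x, h⟩ else x,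
    ?_, ?_, ?_, ?_⟩
  · intro x hx
    simp only [hx, dite_true]
    have h1 := (hmU _).mp (hgU ⟨x, hx⟩)
    refine ⟨h1.1, h1.2, ?_⟩
    have h2 := ((hinc _ _).mp (hk3 ⟨x, hx⟩)).2
    rw [← hgf ⟨x, hx⟩] at h2
    exact h2
  · intro x hx y hy e
    simp only [hx, hy, dite_true] at e
    have h1 : kk ⟨x, hx⟩ = kk ⟨y, hy⟩ := by
      rw [← hgf ⟨x, hx⟩, ← hgf ⟨y, hy⟩]
      exact e
    exact congrArg Subtype.val (hk1 h1)
  · intro x hx
    simp only [hx, dite_true]
    have h1 := hk4 ⟨x, hx⟩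
    rw [← hgf ⟨x, hx⟩] at h1
    exact h1
  · intro x hx y hy e
    simp only [hx, hy, dite_true] at e
    exact congrArg Subtype.val (hk2 e)

end Pool.Agent.Helper73.BP
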