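import Pool.Agent.Helper56.BP.ConeKer
import Pool.Agent.Helper73.BP.StartGood
import Pool.Agent.Helper73.BP.Deficit

/-!
# The cone frame over an arbitrary line, with `K` colours
-/

set_option autoImplicit false
set_option linter.unusedSectionVars false

namespace Pool.Agent.Helper73.BP

open Pool.Agent.Helper28.BPack Pool.Agent.Helper61.Motz Pool.Agent.Helper38.Thick
  Pool.Agent.Helper38.SC Pool.Agent.Helper56.BP

variable {L : Type} [Lattice L] [BoundedOrder L] [Finite L] [IsUpperModularLattice L]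

/-- **Start along good edges with the colours `U`.** -/
theorem start_goodK {A R U : Finset L} {u : L} {ρ : L → L} {adj : L → Finset L}
    [DecidableEq L] [DecidableRel (α := L) (· ≤ ·)]
    (hA : ∀ a ∈ A, IsAtom a) (hu : rk u = 2) (hU : 2 ≤ U.card)
    (hUA : ∀ c ∈ U, c ∈ A ∧ c ≤ u)
    (hmax : ∀ x ∈ R, ∀ c ∈ U, (A.filter (· ≤ x ⊔ c)).card ≤ U.card)
    (hR : ∀ x ∈ R, x ∈ A ∧ ¬ x ≤ u ∧ IsAtom (ρ (u ⊔ x)) ∧ ρ (u ⊔ x) ≠ x)
    (hadj : ∀ k, ∀ H ∈ adj k, k ≤ H ∧ ¬ u ≤ H)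
    (hK : ∀ c ∈ U, ∀ S : Finset L,
      (∀ k ∈ S, ∃ x ∈ R, ¬ ρ (u ⊔ x) ≤ x ⊔ c ∧ k = x ⊔ c) →
      (R.filter (fun x => x ⊔ c ∈ S)).card
        ≤ (U.card - 1) * (S.biUnion adj).card) :
    ∃ (c : L → L) (H : L → L),
      (∀ x ∈ R, c x ∈ U ∧ ¬ ρ (u ⊔ x) ≤ x ⊔ c x) ∧
      (∀ x ∈ R, ∀ y ∈ R, x ⊔ c x = y ⊔ c y → x = y) ∧
      (∀ x ∈ R, H x ∈ adj (x ⊔ c x)) ∧
      (∀ x ∈ R, ∀ y ∈ R, H x = H y → x = y) := by
  classical
  have : Fintype L := Fintype.ofFinite L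
  have hne : ∀ x ∈ R, ∀ c ∈ U, x ≠ c := by
    rintro x hx c hc rfl
    exact (hR x hx).2.1 (hUA x hc).2
  have hrk : ∀ x ∈ R, ∀ c ∈ U, rk (x ⊔ c) = 2 := fun x hx c hc =>
    rk_line (hA x (hR x hx).1) (hA c (hUA c hc).1) (hne x hx c hc)
  -- one colour per row
  have hcol : ∀ x ∈ R, ∀ c ∈ U, ∀ c' ∈ U, c' ≤ x ⊔ c → c = c' := by
    intro x hx c hc c' hc' h
    by_contra hcc
    have hcU := hUA c hc
    have hcU' := hUA c' hc'
    have h1 := line_two (hA c hcU.1) (hA c' hcU'.1) hcc (le_sup_right : c ≤ x ⊔ c) h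
      (hrk x hx c hc) hcU.2 hcU'.2 hu
    exact (hR x hx).2.1 (h1 ▸ le_sup_left)
  have hrow : ∀ x ∈ R, ∀ y ∈ R, ∀ c ∈ U, y ≤ x ⊔ c → y ⊔ c = x ⊔ c :=
    fun x hx y hy c hc h =>
      line_of (hA y (hR y hy).1) (hA c (hUA c hc).1) (hne y hy c hc) h le_sup_right
        (hrk x hx c hc)
  -- the ordinary rows of a user
  let X := {x : L // x ∈ R}
  let inc : X → Finset L := fun x => (U.image (fun c => x.1 ⊔ c)).filter
    (fun k => ¬ ρ (u ⊔ x.1) ≤ k)
  have hinc : ∀ (x : X) (k : L), k ∈ inc x ↔ (∃ c ∈ U, x.1 ⊔ c = k) ∧ ¬ ρ (u ⊔ x.1) ≤ k :=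
    fun x k => by simp only [inc, Finset.mem_filter, Finset.mem_image]
  have hinj : ∀ x ∈ R, Set.InjOn (fun c => x ⊔ c) (U : Set L) := by
    intro x hx c hc c' hc' e
    exact hcol x hx c hc c' hc' (by change c' ≤ (fun c => x ⊔ c) c; rw [e]; exact le_sup_right)
  have hdeg : ∀ x : X, U.card - 1 ≤ (inc x).card := by
    intro x
    have hx := x.2
    have h1 : (U.image (fun c => x.1 ⊔ c)).card = U.card :=
      Finset.card_image_of_injOn (hinj x.1 hx)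
    have h2 : ((U.image (fun c => x.1 ⊔ c)).filter (fun k => ρ (u ⊔ x.1) ≤ k)).card ≤ 1 := by
      rw [Finset.card_le_one]
      intro k hk l hl
      rw [Finset.mem_filter, Finset.mem_image] at hk hl
      obtain ⟨⟨c, hc, rfl⟩, hrk1⟩ := hk
      obtain ⟨⟨c', hc', rfl⟩, hrl1⟩ := hl
      obtain ⟨-, -, hρ, hρx⟩ := hR x.1 hx
      exact line_two (hA x.1 (hR x.1 hx).1) hρ hρx.symm le_sup_left hrk1 (hrk x.1 hx c hc)
        le_sup_left hrl1 (hrk x.1 hx c' hc')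
    have h3 := Finset.card_filter_add_card_filter_not (s := U.image (fun c => x.1 ⊔ c))
      (fun k => ρ (u ⊔ x.1) ≤ k)
    have h4 : (inc x).card =
        ((U.image (fun c => x.1 ⊔ c)).filter (fun k => ¬ ρ (u ⊔ x.1) ≤ k)).card := rfl
    omega
  have hcod : ∀ (k : L) (Y : Finset X), (Y.filter (fun x => k ∈ inc x)).card ≤ U.card - 1 := by
    intro k Y
    rcases (Y.filter (fun x => k ∈ inc x)).eq_empty_or_nonempty with h0 | ⟨x0, hx0⟩
    · rw [h0, Finset.card_empty]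
      exact Nat.zero_le _
    · rw [Finset.mem_filter, hinc] at hx0
      obtain ⟨-, ⟨c0, hc0, hk0⟩, -⟩ := hx0
      have hc0' := hUA c0 hc0
      have hc0k : c0 ≤ k := hk0 ▸ le_sup_right
      have h1 := hmax x0.1 x0.2 c0 hc0
      rw [hk0] at h1
      have hsub : insert c0 ((Y.filter (fun x => k ∈ inc x)).image Subtype.val)
          ⊆ A.filter (· ≤ k) := by
        intro z hz
        rw [Finset.mem_insert, Finset.mem_image] at hz
        rw [Finset.mem_filter]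
        rcases hz with rfl | ⟨x, hx, rfl⟩
        · exact ⟨hc0'.1, hc0k⟩
        · rw [Finset.mem_filter, hinc] at hx
          obtain ⟨-, ⟨c, -, hxk⟩, -⟩ := hx
          exact ⟨(hR x.1 x.2).1, hxk ▸ le_sup_left⟩
      have hnot : c0 ∉ (Y.filter (fun x => k ∈ inc x)).image Subtype.val := by
        intro h
        obtain ⟨x, -, e⟩ := Finset.mem_image.mp h
        exact (hR x.1 x.2).2.1 (e ▸ hc0'.2)
      have h2 := Finset.card_le_card hsub
      rw [Finset.card_insert_of_notMem hnot, Finset.card_image_of_injective _ Subtype.val_injective]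
        at h2
      omega
  obtain ⟨kk, H, hk1, hk2, hk3, hk4⟩ := two_level inc adj (by
    intro Y R0
    set N := Y.biUnion inc with hN
    have hU1 : 0 < U.card - 1 := by omega
    -- count the incidences
    have h1 : (U.card - 1) * Y.card ≤ ∑ k ∈ N, (Y.filter (fun x => k ∈ inc x)).card := by
      calc (U.card - 1) * Y.card = ∑ _x ∈ Y, (U.card - 1) := by
            rw [Finset.sum_const, smul_eq_mul, mul_comm]
        _ ≤ ∑ x ∈ Y, (inc x).card := Finset.sum_le_sum fun x _ => hdeg x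
        _ = ∑ x ∈ Y, (N.filter (fun k => k ∈ inc x)).card := by
            refine Finset.sum_congr rfl fun x hx => ?_
            congr 1
            apply Finset.ext
            intro k
            constructor
            · intro h
              exact Finset.mem_filter.mpr ⟨Finset.mem_biUnion.mpr ⟨x, hx, h⟩, h⟩
            · intro h
              exact (Finset.mem_filter.mp h).2
        _ = ∑ k ∈ N, (Y.filter (fun x => k ∈ inc x)).card := by
            simp only [Finset.card_filter]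
            exact Finset.sum_comm
    have h2 : ∑ k ∈ N, (Y.filter (fun x => k ∈ inc x)).card =
        ∑ k ∈ N \ R0, (Y.filter (fun x => k ∈ inc x)).card +
        ∑ k ∈ N ∩ R0, (Y.filter (fun x => k ∈ inc x)).card := by
      rw [add_comm, ← Finset.sum_inter_add_sum_sdiff N R0]
    have h3 : ∑ k ∈ N \ R0, (Y.filter (fun x => k ∈ inc x)).card ≤
        (U.card - 1) * (N \ R0).card := by
      calc _ ≤ ∑ _k ∈ N \ R0, (U.card - 1) := Finset.sum_le_sum fun k _ => hcod k Y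
        _ = _ := by rw [Finset.sum_const, smul_eq_mul, mul_comm]
    -- the rows of `N ∩ R0`, colour by colour
    let SC : L → Finset L := fun c => (N ∩ R0).filter (fun k => c ≤ k)
    have hSC : ∀ c k, k ∈ SC c ↔ (k ∈ N ∧ k ∈ R0) ∧ c ≤ k := fun c k => by
      simp only [SC, Finset.mem_filter, Finset.mem_inter]
    have hNk : ∀ k ∈ N, ∃ x ∈ R, ∃ c ∈ U, ¬ ρ (u ⊔ x) ≤ k ∧ k = x ⊔ c := by
      intro k hk
      obtain ⟨x, -, hx⟩ := Finset.mem_biUnion.mp hk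
      obtain ⟨⟨c, hc, e⟩, hn⟩ := (hinc x k).mp hx
      exact ⟨x.1, x.2, c, hc, hn, e.symm⟩
    have h4 : ∀ c ∈ U, ∑ k ∈ SC c, (Y.filter (fun x => k ∈ inc x)).card ≤
        (U.card - 1) * ((SC c).biUnion adj).card := by
      intro c hc
      have hcU := hUA c hc
      have hkc : ∀ k ∈ SC c, ∃ x ∈ R, ¬ ρ (u ⊔ x) ≤ x ⊔ c ∧ k = x ⊔ c := by
        intro k hk
        obtain ⟨⟨hkN, -⟩, hck⟩ := (hSC c k).mp hk
        obtain ⟨x, hx, c', hc', hn, e⟩ := hNk k hkN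
        have e2 : c' = c := hcol x hx c' hc' c hc (e ▸ hck)
        subst e2
        exact ⟨x, hx, e ▸ hn, e⟩
      refine le_trans ?_ (hK c hc (SC c) hkc)
      calc ∑ k ∈ SC c, (Y.filter (fun x => k ∈ inc x)).card
          ≤ ∑ k ∈ SC c, (R.filter (fun x => x ⊔ c = k)).card := by
            refine Finset.sum_le_sum fun k hk => ?_
            rw [← Finset.card_image_of_injective _ Subtype.val_injective]
            refine Finset.card_le_card ?_
            intro z hz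
            obtain ⟨x, hx, rfl⟩ := Finset.mem_image.mp hz
            rw [Finset.mem_filter, hinc] at hx
            obtain ⟨-, ⟨c', hc', e⟩, -⟩ := hx
            have hck := ((hSC c k).mp hk).2
            have e2 : c' = c := hcol x.1 x.2 c' hc' c hc (e ▸ hck)
            subst e2
            exact Finset.mem_filter.mpr ⟨x.2, e⟩
        _ = (R.filter (fun x => x ⊔ c ∈ SC c)).card := by
            rw [Finset.card_eq_sum_card_fiberwise (f := fun x => x ⊔ c) (t := SC c)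
              (s := R.filter (fun x => x ⊔ c ∈ SC c))
              (fun x hx => (Finset.mem_filter.mp hx).2)]
            refine Finset.sum_congr rfl fun k hk => ?_
            congr 1
            ext x
            simp only [Finset.mem_filter]
            constructor
            · rintro ⟨hx, e⟩
              exact ⟨⟨hx, e ▸ hk⟩, e⟩
            · rintro ⟨⟨hx, -⟩, e⟩
              exact ⟨hx, e⟩
    have h5 : N ∩ R0 = U.biUnion SC := by
      apply Finset.ext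
      intro k
      constructor
      · intro hk0
        obtain ⟨hk, hk'⟩ := Finset.mem_inter.mp hk0
        obtain ⟨x, hx, c, hc, -, e⟩ := hNk k hk
        exact Finset.mem_biUnion.mpr ⟨c, hc, (hSC c k).mpr ⟨⟨hk, hk'⟩, e ▸ le_sup_right⟩⟩
      · intro hk0
        obtain ⟨c, -, hk⟩ := Finset.mem_biUnion.mp hk0
        exact Finset.mem_inter.mpr ((hSC c k).mp hk).1
    have h6 : ∑ k ∈ N ∩ R0, (Y.filter (fun x => k ∈ inc x)).card =
        ∑ c ∈ U, ∑ k ∈ SC c, (Y.filter (fun x => k ∈ inc x)).card := by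
      conv_lhs => rw [h5]
      refine Finset.sum_biUnion ?_
      intro c hc c' hc' hcc
      rw [Function.onFun, Finset.disjoint_left]
      intro k hk hk'
      obtain ⟨⟨hkN, -⟩, h7⟩ := (hSC c k).mp hk
      obtain ⟨-, h8⟩ := (hSC c' k).mp hk'
      obtain ⟨x, hx, d, hd, -, e⟩ := hNk k hkN
      exact hcc ((hcol x hx d hd c hc (e ▸ h7)).symm.trans (hcol x hx d hd c' hc' (e ▸ h8)))
    have h7 : ∑ c ∈ U, ((SC c).biUnion adj).card ≤ (R0.biUnion adj).card := by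
      rw [← Finset.card_biUnion]
      · refine Finset.card_le_card ?_
        intro q hq
        obtain ⟨c, -, hq⟩ := Finset.mem_biUnion.mp hq
        obtain ⟨k, hk, hkq⟩ := Finset.mem_biUnion.mp hq
        exact Finset.mem_biUnion.mpr ⟨k, ((hSC c k).mp hk).1.2, hkq⟩
      · intro c hc c' hc' hcc
        rw [Function.onFun, Finset.disjoint_left]
        intro q hq hq'
        obtain ⟨k, hk, hkq⟩ := Finset.mem_biUnion.mp hq
        obtain ⟨k', hk', hkq'⟩ := Finset.mem_biUnion.mp hq'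
        obtain ⟨-, h8⟩ := (hSC c k).mp hk
        obtain ⟨-, h9⟩ := (hSC c' k').mp hk'
        obtain ⟨a1, a2⟩ := hadj k q hkq
        obtain ⟨b1, -⟩ := hadj k' q hkq'
        have f1 := hUA c hc
        have f2 := hUA c' hc'
        have g : c ⊔ c' = u := line_of (hA c f1.1) (hA c' f2.1) hcc f1.2 f2.2 hu
        exact a2 (g ▸ sup_le (h8.trans a1) (h9.trans b1))
    have h8 : (U.card - 1) * Y.card ≤
        (U.card - 1) * ((N \ R0).card + (R0.biUnion adj).card) := by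
      calc (U.card - 1) * Y.card ≤ _ := h1
        _ = _ := h2
        _ ≤ (U.card - 1) * (N \ R0).card +
            ∑ c ∈ U, (U.card - 1) * ((SC c).biUnion adj).card := by
            rw [h6]
            exact Nat.add_le_add h3 (Finset.sum_le_sum h4)
        _ = (U.card - 1) * (N \ R0).card +
            (U.card - 1) * ∑ c ∈ U, ((SC c).biUnion adj).card := by rw [Finset.mul_sum]
        _ ≤ (U.card - 1) * (N \ R0).card + (U.card - 1) * (R0.biUnion adj).card :=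
            Nat.add_le_add_left (Nat.mul_le_mul_left _ h7) _
        _ = _ := by ring
    exact Nat.le_of_mul_le_mul_left h8 hU1)
  have hex : ∀ x : X, ∃ c ∈ U, x.1 ⊔ c = kk x := fun x => ((hinc x _).mp (hk3 x)).1
  choose g hgU hgf using hex
  refine ⟨fun x => if h : x ∈ R then g ⟨x, h⟩ else x, fun x => if h : x ∈ R then H ⟨x, h⟩ else x,
    ?_, ?_, ?_, ?_⟩
  · intro x hx
    simp only [hx, dite_true]
    refine ⟨hgU ⟨x, hx⟩, ?_⟩
    have h2 := ((hinc _ _).mp (hk3 ⟨x, hx⟩)).2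
    rw [← hgf ⟨x, hx⟩] at h2
    exact h2
  · intro x hx y hy e
    simp only [hx, hy, dite_true] at e
    have h1 : kk ⟨x, hx⟩ = kk ⟨y, hy⟩ := by
      rw [← hgf ⟨x, hx⟩, ← hgf ⟨y, hy⟩]
      exact e
    exact congrArg Subtype.val (hk1 h1)
  · intro x hx
    simp only [hx, dite_true]
    have h1 := hk4 ⟨x, hx⟩
    rw [← hgf ⟨x, hx⟩] at h1
    exact h1
  · intro x hx y hy e
    simp only [hx, hy, dite_true] at e
    exact congrArg Subtype.val (hk2 e)


/-- The cone frame over a line `u` (not necessarily longest). -/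
structure FrK [DecidableRel (α := L) (· ≤ ·)] (A : Finset L) (Q o u : L) (ρ : L → L) : Prop where
  at_ : ∀ a ∈ A, IsAtom a
  rQ : rk Q = 3
  oA : o ∈ A
  oQ : ¬ o ≤ Q
  ru : rk u = 2
  uQ : u ≤ Q
  U2 : 2 ≤ (A.filter (· ≤ u)).card
  tri : ∃ a ∈ A, a ≤ Q ∧ ¬ a ≤ u
  rho : ∀ x ∈ A, ¬ x ≤ Q → ρ (u ⊔ x) ∈ A ∧ ¬ ρ (u ⊔ x) ≤ Q ∧ ρ (u ⊔ x) ≤ u ⊔ x
  rhoo : ρ (u ⊔ o) = o

section

variable [DecidableEq L] [DecidableRel (α := L) (· ≤ ·)] {A : Finset L} {Q o u : L} {ρ : L → L}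

theorem FrK.off (F : FrK A Q o u ρ) {x : L} (h : ¬ x ≤ Q) : ¬ x ≤ u := fun h' => h (h'.trans F.uQ)

/-- The planes over `u`. -/
theorem FrK.pl (F : FrK A Q o u ρ) {x z : L} (hx : x ∈ A) (hxu : ¬ x ≤ u) (hz : z ∈ A)
    (hzu : ¬ z ≤ u) (h : z ≤ u ⊔ x) : u ⊔ z = u ⊔ x :=
  eq_of_le_of_rk (sup_le le_sup_left h) (by
    rw [rk_sup_atom (F.at_ x hx) hxu, rk_sup_atom (F.at_ z hz) hzu])

/-- A representative is not in the plane of `o`. -/
theorem FrK.rep_o (F : FrK A Q o u ρ) {x : L} (hx : x ∈ RC A Q o u ρ) : ¬ o ≤ x ⊔ u := by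
  obtain ⟨h1, h2, h3, h4⟩ := mem_RC.mp hx
  intro h
  have h5 := F.pl h1 (F.off h2) F.oA (F.off F.oQ) (by rw [sup_comm]; exact h)
  rw [← h5, F.rhoo] at h4
  exact h3 h4.symm

end

/-- **The frame exists over every plane `Q` over any line `u`.** -/
theorem exists_frK [DecidableEq L] [DecidableRel (α := L) (· ≤ ·)] {A : Finset L}
    (hA : ∀ a ∈ A, IsAtom a) (hrA : rk (A.sup id) = 4) (hcore : Core A) {u Q : L}
    (hu : rk u = 2) (hU : 2 ≤ (A.filter (· ≤ u)).card)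
    (hQ : rk Q = 3) (huQ : u ≤ Q) (hQA : ∃ a ∈ A, a ≤ Q ∧ ¬ a ≤ u) :
    ∃ (o : L) (ρ : L → L), FrK A Q o u ρ ∧ NF A Q o u := by
  classical
  -- the point `o`
  have ho : ∃ o ∈ A, ¬ o ≤ Q ∧ NF A Q o u := by
    obtain ⟨o0, ho0, ho0Q⟩ := exists_not_le hrA (p := Q) (by omega)
    by_cases hd : ∃ c ∈ A, c ≤ u ∧ DegA A u Q c
    · obtain ⟨c0, hc0, hc0u, hd0⟩ := hd
      by_cases hx : ∃ x ∈ A, ¬ x ≤ Q ∧ ¬ DegA A u (u ⊔ x) c0
      · obtain ⟨x, hx, hxQ, hxd⟩ := hx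
        refine ⟨x, hx, hxQ, fun c hc hcu => ?_⟩
        by_cases hcc : c = c0
        · right
          left
          rw [hcc]
          exact hxd
        · left
          intro h
          exact hcc (deg_unique hA hcore hu hQ huQ hQA hc hcu hc0 hc0u h hd0)
      · push Not at hx
        refine ⟨o0, ho0, ho0Q, fun c hc hcu => ?_⟩
        by_cases hcc : c = c0
        · right
          right
          rw [hcc]
          exact hx
        · left
          intro h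
          exact hcc (deg_unique hA hcore hu hQ huQ hQA hc hcu hc0 hc0u h hd0)
    · push Not at hd
      exact ⟨o0, ho0, ho0Q, fun c hc hcu => Or.inl (hd c hc hcu)⟩
  obtain ⟨o, hoA, hoQ, hNF⟩ := ho
  set ρ : L → L := fun P => if o ≤ P then o else
    if h : ∃ a ∈ A, a ≤ P ∧ ¬ a ≤ Q then h.choose else o with hρ
  refine ⟨o, ρ, ⟨hA, hQ, hoA, hoQ, hu, huQ, hU, hQA, ?_, ?_⟩, hNF⟩
  · intro x hx hxQ
    by_cases h : o ≤ u ⊔ x
    · have e : ρ (u ⊔ x) = o := by simp only [hρ]; exact if_pos h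
      rw [e]
      exact ⟨hoA, hoQ, h⟩
    · have h2 : ∃ a ∈ A, a ≤ u ⊔ x ∧ ¬ a ≤ Q := ⟨x, hx, le_sup_right, hxQ⟩
      have e : ρ (u ⊔ x) = h2.choose := by
        simp only [hρ]
        rw [if_neg h, dif_pos h2]
      rw [e]
      exact ⟨h2.choose_spec.1, h2.choose_spec.2.2, h2.choose_spec.2.1⟩
  · simp only [hρ]
    exact if_pos le_sup_right

theorem ker_of_frK [DecidableEq L] [DecidableRel (α := L) (· ≤ ·)] {A : Finset L} {Q o u : L}
    {ρ : L → L} (F : FrK A Q o u ρ) (hNF : NF A Q o u) : Ker A Q o u ρ := by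
  classical
  intro c hc hcu S hS
  have hne : ∀ x, ¬ x ≤ u → x ≠ c := fun x hx e => hx (e ▸ hcu)
  refine Pool.Agent.Helper95.Cone.cone_hK (ρ := ρ)
    (adj := fun k => (Set.toFinite {H | ADC A Q o u k H}).toFinset)
    F.at_ F.ru F.rQ F.uQ F.oA F.oQ hc hcu ?_ ?_ F.rhoo ?_ ?_ ?_ S ?_
  · obtain ⟨d, hd, hdc⟩ : ∃ d ∈ A.filter (· ≤ u), d ≠ c :=
      Finset.exists_mem_ne (by have := F.U2; omega) c
    rw [Finset.mem_filter] at hd
    exact ⟨d, hd.1, hd.2, hdc⟩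
  · exact F.tri
  · intro x hx hxQ
    obtain ⟨h1, h2, h3⟩ := F.rho x hx hxQ
    exact ⟨h1, F.pl hx (F.off hxQ) h1 (F.off h2) h3⟩
  · rcases hNF c hc hcu with h | h | h
    · left
      unfold DegA at h
      push Not at h
      obtain ⟨y, hy, hyQ, hyu, z, hz, hzQ, hzu, hzy⟩ := h
      exact ⟨z, hz, y, hy, hzQ, hyQ, hzu, hyu, by rw [sup_comm]; exact hzy⟩
    · right
      left
      unfold DegA at h
      push Not at h
      obtain ⟨y, hy, hyQ, hyu, z, hz, hzQ, hzu, hzy⟩ := h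
      by_cases h1 : y ≤ c ⊔ o
      · refine ⟨z, hz, hzQ, hzu, fun h2 => hzy ?_⟩
        have hco : c ≠ o := fun e => F.off F.oQ (e ▸ hcu)
        have h3 : y ⊔ c = c ⊔ o := line_of (F.at_ y hy) (F.at_ c hc) (hne y hyu) h1 le_sup_left
          (rk_line (F.at_ c hc) (F.at_ o F.oA) hco)
        rw [h3]
        exact h2
      · exact ⟨y, hy, hyQ, hyu, h1⟩
    · right
      right
      intro x hx y hy hxQ _ hyx hyu
      rw [sup_comm]
      exact h x hx hxQ x hx le_sup_right (F.off hxQ) y hy hyx hyu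
  · intro x hx hxQ H h1 h2 h3 h4 h5
    rw [Set.Finite.mem_toFinset, Set.mem_ofPred_eq]
    refine ⟨h1, h2, h3, fun ho q hq hqQ hqH => ?_⟩
    by_contra hqu
    exact h5 ⟨ho, q, hq, hqQ, hqu, hqH⟩
  · intro k hk
    obtain ⟨x, hx, -, hxQ, h1, h2⟩ := hS k hk
    exact ⟨x, hx, hxQ, h1, h2⟩

section

variable [DecidableEq L] [DecidableRel (α := L) (· ≤ ·)] {A : Finset L} {Q o u : L} {ρ : L → L}

/-- **The start with the colours `U`.** -/
theorem cone_mP_K (F : FrK A Q o u ρ) (hK : Ker A Q o u ρ) {U : Finset L} (hU : 2 ≤ U.card)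
    (hUA : ∀ c ∈ U, c ∈ A ∧ c ≤ u)
    (hrow : ∀ x ∈ A, ¬ x ≤ Q → ∀ c ∈ U, (A.filter (· ≤ x ⊔ c)).card ≤ U.card) :
    ∃ m P : L → L,
      (∀ x ∈ NC A Q o, x ∉ RC A Q o u ρ → m x ∈ U ∧ ¬ ZC o (x ⊔ m x) ∧
        ADC A Q o u (x ⊔ m x) (P x) ∧ ∀ z ∈ RC A Q o u ρ, ¬ z ≤ x ⊔ m x) ∧
      (∀ x ∈ NC A Q o, x ∉ RC A Q o u ρ → ∀ y ∈ NC A Q o, y ∉ RC A Q o u ρ →
        x ⊔ m x = y ⊔ m y → x = y) ∧
      (∀ x ∈ NC A Q o, x ∉ RC A Q o u ρ → ∀ y ∈ NC A Q o, y ∉ RC A Q o u ρ → P x = P y → x = y) := by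
  classical
  set R : Finset L := NC A Q o \ RC A Q o u ρ with hR
  have hmR : ∀ x, x ∈ R ↔ x ∈ NC A Q o ∧ x ∉ RC A Q o u ρ := fun x => by
    rw [hR, Finset.mem_sdiff]
  have haj : ∀ k H, H ∈ (Set.toFinite {H | ADC A Q o u k H}).toFinset ↔ ADC A Q o u k H :=
    fun k H => by simp
  have hRx : ∀ x ∈ R, x ∈ A ∧ ¬ x ≤ Q ∧ x ≠ o ∧ ρ (u ⊔ x) ≠ x := by
    intro x hx
    obtain ⟨h1, h2⟩ := (hmR x).mp hx
    obtain ⟨h3, h4, h5⟩ := mem_NC.mp h1
    exact ⟨h3, h4, h5, fun e => h2 (mem_RC.mpr ⟨h3, h4, h5, e⟩)⟩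
  obtain ⟨m, P, h1, h2, h3, h4⟩ := start_goodK (A := A) (R := R) (U := U) (u := u) (ρ := ρ)
    (adj := fun k => (Set.toFinite {H | ADC A Q o u k H}).toFinset) F.at_ F.ru hU hUA
    (fun x hx c hc => hrow x (hRx x hx).1 (hRx x hx).2.1 c hc)
    (fun x hx => ⟨(hRx x hx).1, F.off (hRx x hx).2.1, F.at_ _ (F.rho x (hRx x hx).1
      (hRx x hx).2.1).1, (hRx x hx).2.2.2⟩)
    (fun k H hH => by
      have := (haj k H).mp hH
      exact ⟨this.2.1, this.2.2.1⟩)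
    (by
      intro c hc S hS
      have hcA := hUA c hc
      have h5 := hK c hcA.1 hcA.2 S (fun k hk => by
        obtain ⟨x, hx, h6, h7⟩ := hS k hk
        exact ⟨x, (hRx x hx).1, F.off (hRx x hx).2.1, (hRx x hx).2.1, h6, h7⟩)
      refine le_trans ?_ (Nat.mul_le_mul_left _ h5)
      calc (R.filter (fun x => x ⊔ c ∈ S)).card
          = ∑ k ∈ S, ((R.filter (fun x => x ⊔ c ∈ S)).filter (fun x => x ⊔ c = k)).card :=
            Finset.card_eq_sum_card_fiberwise (fun x hx => (Finset.mem_filter.mp hx).2)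
        _ ≤ ∑ _k ∈ S, (U.card - 1) := by
            refine Finset.sum_le_sum fun k hk => ?_
            obtain ⟨x0, hx0, -, h7⟩ := hS k hk
            have h8 := hrow x0 (hRx x0 hx0).1 (hRx x0 hx0).2.1 c hc
            rw [← h7] at h8
            have hsub : insert c ((R.filter (fun x => x ⊔ c ∈ S)).filter (fun x => x ⊔ c = k))
                ⊆ A.filter (· ≤ k) := by
              intro z hz
              rw [Finset.mem_insert] at hz
              rw [Finset.mem_filter]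
              rcases hz with rfl | hz
              · exact ⟨hcA.1, h7 ▸ le_sup_right⟩
              · rw [Finset.mem_filter, Finset.mem_filter] at hz
                exact ⟨(hRx z hz.1.1).1, hz.2 ▸ le_sup_left⟩
            have hnot : c ∉ (R.filter (fun x => x ⊔ c ∈ S)).filter (fun x => x ⊔ c = k) := by
              intro h
              rw [Finset.mem_filter, Finset.mem_filter] at h
              exact F.off (hRx c h.1.1).2.1 hcA.2
            have h9 := Finset.card_le_card hsub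
            rw [Finset.card_insert_of_notMem hnot] at h9
            omega
        _ = (U.card - 1) * S.card := by rw [Finset.sum_const, smul_eq_mul, mul_comm])
  refine ⟨m, P, ?_, ?_, ?_⟩
  · intro x hx hxR
    have hxR' := (hmR x).mpr ⟨hx, hxR⟩
    obtain ⟨h5, h6, h7⟩ := mem_NC.mp hx
    obtain ⟨k1, k3⟩ := h1 x hxR'
    have k2 := (hUA _ k1).2
    have key : ∀ z ∈ A, ¬ z ≤ Q → ρ (u ⊔ z) = z → ¬ z ≤ x ⊔ m x := by
      intro z hz hzQ hzz h
      have h8 : z ≤ u ⊔ x := h.trans (sup_le le_sup_right (k2.trans le_sup_left))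
      have h9 := F.pl h5 (F.off h6) hz (F.off hzQ) h8
      exact k3 (by rw [← h9, hzz]; exact h)
    refine ⟨k1, key o F.oA F.oQ F.rhoo, (haj _ _).mp (h3 x hxR'), ?_⟩
    intro z hz
    obtain ⟨l1, l2, -, l4⟩ := mem_RC.mp hz
    exact key z l1 l2 l4
  · intro x hx hxR y hy hyR e
    exact h2 x ((hmR x).mpr ⟨hx, hxR⟩) y ((hmR y).mpr ⟨hy, hyR⟩) e
  · intro x hx hxR y hy hyR e
    exact h4 x ((hmR x).mpr ⟨hx, hxR⟩) y ((hmR y).mpr ⟨hy, hyR⟩) e

/-- **Rank four from slots and lines.** -/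
theorem crit4_of_mPg (F : FrK A Q o u ρ) {m P gg : L → L}
    (h1 : ∀ x ∈ NC A Q o, x ∉ RC A Q o u ρ → m x ∈ A ∧ m x ≤ u ∧ ¬ ZC o (x ⊔ m x) ∧
      ADC A Q o u (x ⊔ m x) (P x) ∧ ∀ z ∈ RC A Q o u ρ, ¬ z ≤ x ⊔ m x)
    (h2 : ∀ x ∈ NC A Q o, x ∉ RC A Q o u ρ → ∀ y ∈ NC A Q o, y ∉ RC A Q o u ρ →
      x ⊔ m x = y ⊔ m y → x = y)
    (h3 : ∀ x ∈ NC A Q o, x ∉ RC A Q o u ρ → ∀ y ∈ NC A Q o, y ∉ RC A Q o u ρ →
      P x = P y → x = y)
    (hg : ∀ x ∈ NC A Q o, x ∉ RC A Q o u ρ → gg x ∈ A ∧ gg x ≤ P x ∧ ¬ gg x ≤ x ⊔ m x)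
    (hginj : ∀ x ∈ NC A Q o, x ∉ RC A Q o u ρ → ∀ y ∈ NC A Q o, y ∉ RC A Q o u ρ →
      x ⊔ gg x = y ⊔ gg y → x = y) : Crit4 A := by
  classical
  have hmN : ∀ x ∈ A, ¬ x ≤ Q → x ≠ o → x ∈ NC A Q o := fun x h1 h2 h3 => mem_NC.mpr ⟨h1, h2, h3⟩
  obtain ⟨b1, hb1', b2, hb2', hb12⟩ := Finset.one_lt_card.mp (show 1 < (A.filter (· ≤ u)).card from
    by have := F.U2; omega)
  obtain ⟨hb1, hbu1⟩ := Finset.mem_filter.mp hb1'
  obtain ⟨hb2, hbu2⟩ := Finset.mem_filter.mp hb2'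
  refine Pool.Agent.Helper83.RC.crit4_of_coneW (A := A) (Q := Q) (o := o) (u := u)
    (Rp := fun x => x ∈ RC A Q o u ρ) (cc := m) (gg := gg) (H := P)
    (e1 := fun _ => b1) (e2 := fun _ => b2) F.at_ F.rQ F.oA F.oQ F.ru F.uQ ?_ ?_ ?_ ?_ ?_ ?_ ?_ ?_
    ?_ ?_ ?_
  · intro B hB
    obtain ⟨a, ha, haQ, hau⟩ := F.tri
    refine Pool.Agent.Helper63.HM.crit3_plane F.at_
      ⟨b1, hb1, b2, hb2, a, ha, hbu1.trans F.uQ, hbu2.trans F.uQ, haQ, ?_⟩ F.rQ B hB
    have h1 : b1 ⊔ b2 = u := line_of (F.at_ b1 hb1) (F.at_ b2 hb2) hb12 hbu1 hbu2 F.ru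
    rw [h1, rk_sup_atom (F.at_ a ha) hau, F.ru]
  · intro x _ _ _ hR
    exact F.rep_o hR
  · intro x _ _ _ _
    exact ⟨hb1, hbu1, hb2, hbu2, hb12⟩
  · intro x _ _ _ hx y _ _ _ hy e
    obtain ⟨-, -, -, h4⟩ := mem_RC.mp hx
    obtain ⟨-, -, -, k4⟩ := mem_RC.mp hy
    rw [sup_comm, sup_comm y u] at e
    rw [← h4, e, k4]
  · intro x _ _ _ hx y k1 k2 k3 hy
    have h4 := (h1 y (hmN y k1 k2 k3) hy).2.2.2.2 x hx
    exact ⟨fun e => h4 (by rw [e]; exact le_sup_left), fun e => h4 (by rw [e]; exact le_sup_left)⟩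
  · intro x k1 k2 k3 hx
    have h4 := h1 x (hmN x k1 k2 k3) hx
    exact ⟨h4.1, h4.2.1⟩
  · intro x k1 k2 k3 hx y l1 l2 l3 hy e
    exact h2 x (hmN x k1 k2 k3) hx y (hmN y l1 l2 l3) hy e
  · intro x k1 k2 k3 hx
    obtain ⟨-, -, h6, h7, -⟩ := h1 x (hmN x k1 k2 k3) hx
    exact ⟨h7.1, h7.2.1, h7.2.2.1, h6, h7.2.2.2⟩
  · intro x k1 k2 k3 hx y l1 l2 l3 hy _ e
    exact h3 x (hmN x k1 k2 k3) hx y (hmN y l1 l2 l3) hy e
  · intro x k1 k2 k3 hx
    exact hg x (hmN x k1 k2 k3) hx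
  · intro x k1 k2 k3 hx y l1 l2 l3 hy e
    exact hginj x (hmN x k1 k2 k3) hx y (hmN y l1 l2 l3) hy e

/-- **One slot per user with `K` colours**: on a line at most `min (#users) K` users have a claim. -/
theorem crit4_of_slotsK (F : FrK A Q o u ρ) {U : Finset L} {m P : L → L}
    (hUA : ∀ c ∈ U, c ∈ A ∧ c ≤ u)
    (h1 : ∀ x ∈ NC A Q o, x ∉ RC A Q o u ρ → m x ∈ U ∧ ¬ ZC o (x ⊔ m x) ∧
      ADC A Q o u (x ⊔ m x) (P x) ∧ ∀ z ∈ RC A Q o u ρ, ¬ z ≤ x ⊔ m x)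
    (h2 : ∀ x ∈ NC A Q o, x ∉ RC A Q o u ρ → ∀ y ∈ NC A Q o, y ∉ RC A Q o u ρ →
      x ⊔ m x = y ⊔ m y → x = y)
    (h3 : ∀ x ∈ NC A Q o, x ∉ RC A Q o u ρ → ∀ y ∈ NC A Q o, y ∉ RC A Q o u ρ →
      P x = P y → x = y)
    (hval : ∀ x ∈ NC A Q o, x ∉ RC A Q o u ρ → (1 : ℚ) ≤ ∑ g ∈ pen A x (x ⊔ m x) (P x),
      (1 : ℚ) / ((min (A.filter (fun z => z ≤ g ∧ ¬ z ≤ Q)).card U.card : ℕ) : ℚ)) :
    Crit4 A := by
  classical
  set R : Finset L := NC A Q o \ RC A Q o u ρ with hR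
  have hmR : ∀ x, x ∈ R ↔ x ∈ NC A Q o ∧ x ∉ RC A Q o u ρ := fun x => by
    rw [hR, Finset.mem_sdiff]
  have hRx : ∀ x ∈ R, x ∈ A ∧ ¬ x ≤ Q := by
    intro x hx
    obtain ⟨h3, h4, -⟩ := mem_NC.mp ((hmR x).mp hx).1
    exact ⟨h3, h4⟩
  have hspec : ∀ x ∈ R, ∀ g ∈ pen A x (x ⊔ m x) (P x),
      rk g = 2 ∧ x ≤ g ∧ g ≤ P x ∧ ¬ m x ≤ g ∧ g ⊔ m x = P x := by
    intro x hx g hg
    obtain ⟨k1, k2⟩ := (hmR x).mp hx
    obtain ⟨l1, -, l3, -⟩ := h1 x k1 k2
    exact pen_spec F.at_ (hRx x hx).1 (hUA _ l1).1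
      (fun e => F.off (hRx x hx).2 (by rw [e]; exact (hUA _ l1).2)) l3.1 l3.2.1 hg
  let n : L → ℕ := fun g => min (A.filter (fun z => z ≤ g ∧ ¬ z ≤ Q)).card U.card
  obtain ⟨f, hfinj, hf⟩ := hall_deficit (X := R) (Y := L)
    (fun x => pen A x.1 (x.1 ⊔ m x.1) (P x.1))
    (fun _ g => (1 : ℚ) / ((n g : ℕ) : ℚ))
    (fun x g => by positivity)
    (by
      refine lt_of_le_of_lt (le_of_eq (Finset.sum_eq_zero fun x _ => ?_)) zero_lt_one
      obtain ⟨k1, k2⟩ := (hmR x.1).mp x.2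
      have := hval x.1 k1 k2
      rw [max_eq_left]
      linarith)
    (fun g => by
      set C : Finset R := Finset.univ.filter
        (fun x : R => g ∈ pen A x.1 (x.1 ⊔ m x.1) (P x.1)) with hC
      have hmC : ∀ x ∈ C, g ∈ pen A x.1 (x.1 ⊔ m x.1) (P x.1) := fun x hx =>
        (Finset.mem_filter.mp hx).2
      rw [Finset.sum_const, nsmul_eq_mul]
      have c1 : C.card ≤ (A.filter (fun z => z ≤ g ∧ ¬ z ≤ Q)).card := by
        rw [← Finset.card_image_of_injective C Subtype.val_injective]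
        refine Finset.card_le_card ?_
        intro z hz
        obtain ⟨x, hx, rfl⟩ := Finset.mem_image.mp hz
        exact Finset.mem_filter.mpr ⟨(hRx x.1 x.2).1, (hspec x.1 x.2 g (hmC x hx)).2.1,
          (hRx x.1 x.2).2⟩
      have c2 : C.card ≤ U.card := by
        have hinj : Set.InjOn (fun x : R => m x.1) C := by
          intro x hx y hy e
          have e' : m x.1 = m y.1 := e
          obtain ⟨-, -, -, -, p5⟩ := hspec x.1 x.2 g (hmC x hx)
          obtain ⟨-, -, -, -, q5⟩ := hspec y.1 y.2 g (hmC y hy)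
          have e2 : P x.1 = P y.1 := by rw [← p5, ← q5, e']
          obtain ⟨k1, k2⟩ := (hmR x.1).mp x.2
          obtain ⟨l1, l2⟩ := (hmR y.1).mp y.2
          exact Subtype.ext (h3 x.1 k1 k2 y.1 l1 l2 e2)
        rw [← Finset.card_image_of_injOn hinj]
        refine Finset.card_le_card ?_
        intro c hc
        obtain ⟨x, -, rfl⟩ := Finset.mem_image.mp hc
        obtain ⟨k1, k2⟩ := (hmR x.1).mp x.2
        exact (h1 x.1 k1 k2).1
      have c3 : C.card ≤ n g := le_min c1 c2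
      rcases Nat.eq_zero_or_pos (n g) with h0 | h0
      · rw [h0] at c3
        have : C.card = 0 := Nat.le_zero.mp c3
        rw [this]
        simp
      · rw [mul_one_div, div_le_one (by exact_mod_cast h0)]
        exact_mod_cast c3)
  have hz : ∀ x ∈ R, ∃ z, z ∈ A ∧ z ≤ P x ∧ ¬ z ≤ x ⊔ m x ∧
      x ⊔ z = (if hx : x ∈ R then f ⟨x, hx⟩ else x) := by
    intro x hx
    obtain ⟨z, k1, k2, k3, k4⟩ := mem_pen.mp (hf ⟨x, hx⟩)
    exact ⟨z, k1, k2, k3, by rw [dif_pos hx]; exact k4⟩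
  choose! gg g1 g2 g3 g4 using hz
  refine crit4_of_mPg F (m := m) (P := P) (gg := gg) ?_ h2 h3 ?_ ?_
  · intro x hx hxR
    obtain ⟨k1, k2, k3, k4⟩ := h1 x hx hxR
    exact ⟨(hUA _ k1).1, (hUA _ k1).2, k2, k3, k4⟩
  · intro x hx hxR
    have h := (hmR x).mpr ⟨hx, hxR⟩
    exact ⟨g1 x h, g2 x h, g3 x h⟩
  · intro x hx hxR y hy hyR e
    have h := (hmR x).mpr ⟨hx, hxR⟩
    have h' := (hmR y).mpr ⟨hy, hyR⟩
    rw [g4 x h, g4 y h', dif_pos h, dif_pos h'] at e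
    exact congrArg Subtype.val (hfinj e)

end

/-- **(SQ) for cores with `K` colours.**  `u` is any line with at least `K` points such that all
other lines meeting it have at most `K` points, `Q` a plane over `u`; in every plane `H` not over
`u` which contains a point `c` of `u`, for every point `x` of `H` off `Q`, the sum of
`1 / min (|g - Q|) K` over the lines `g` of `H` through `x`, not through `c`, is at least one. -/
theorem crit4_SQK [DecidableEq L] [DecidableRel (α := L) (· ≤ ·)] {A : Finset L}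
    (hA : ∀ a ∈ A, IsAtom a) (hrA : rk (A.sup id) = 4)
    (hcore : Core A) {u Q : L} {K : ℕ} (hu : rk u = 2) (hK2 : 2 ≤ K)
    (hKu : K ≤ (A.filter (· ≤ u)).card)
    (hrow : ∀ x ∈ A, ¬ x ≤ u → ∀ c ∈ A, c ≤ u → (A.filter (· ≤ x ⊔ c)).card ≤ K)
    (hQ : rk Q = 3) (huQ : u ≤ Q) (hQA : ∃ a ∈ A, a ≤ Q ∧ ¬ a ≤ u)
    (hSQ : ∀ H, rk H = 3 → ¬ u ≤ H → ∀ c ∈ A, c ≤ u → c ≤ H → ∀ x ∈ A, x ≤ H → ¬ x ≤ Q →
      (1 : ℚ) ≤ ∑ g ∈ pen A x (x ⊔ c) H,
        (1 : ℚ) / ((min (A.filter (fun z => z ≤ g ∧ ¬ z ≤ Q)).card K : ℕ) : ℚ)) : Crit4 A := by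
  classical
  obtain ⟨o, ρ, F, hNF⟩ := exists_frK hA hrA hcore hu (hK2.trans hKu) hQ huQ hQA
  obtain ⟨U, hUA, hUK⟩ := Finset.exists_subset_card_eq hKu
  have hUA' : ∀ c ∈ U, c ∈ A ∧ c ≤ u := fun c hc => Finset.mem_filter.mp (hUA hc)
  obtain ⟨m, P, h1, h2, h3⟩ := cone_mP_K F (ker_of_frK F hNF) (U := U) (by omega) hUA'
    (fun x hx hxQ c hc => by
      rw [hUK]
      exact hrow x hx (F.off hxQ) c (hUA' c hc).1 (hUA' c hc).2)
  refine crit4_of_slotsK F hUA' h1 h2 h3 (fun x hx hxR => ?_)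
  obtain ⟨l1, l2, l3⟩ := mem_NC.mp hx
  obtain ⟨n1, -, n3, -⟩ := h1 x hx hxR
  rw [hUK]
  exact hSQ (P x) n3.1 n3.2.2.1 (m x) (hUA' _ n1).1 (hUA' _ n1).2 (le_sup_right.trans n3.2.1) x l1
    (le_sup_left.trans n3.2.1) l2

end Pool.Agent.Helper73.BP
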