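import Pool.Agent.Helper73.BP.Slack

/-!
# The start of the cone frame

Users get different rows not through the special point `ρ P` of their group `P`, and all rows of
this kind get different planes of their colour.
-/

set_option autoImplicit false
set_option linter.unusedSectionVars false

namespace Pool.Agent.Helper73.BP

open Pool.Agent.Helper28.BPack Pool.Agent.Helper61.Motz Pool.Agent.Helper38.Thick

variable {L : Type} [Lattice L] [BoundedOrder L] [Finite L] [IsUpperModularLattice L]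

/-- **Start.**  `Off x` : the users and rows live off a plane `Q` (`Off x := ¬ x ≤ Q`).
`ρ P` is the special point (rep or `o`) of the plane `P` over `u`.  `adj k` is the set of allowed
planes of the row `k`.  Hypothesis `hK`: Hall's condition, colour by colour, for the rows not
through the special points. -/
theorem start {A R : Finset L} {u : L} {ρ : L → L} {Off : L → Prop} {adj : L → Finset L}
    [DecidableEq L] [DecidableRel (α := L) (· ≤ ·)]
    (hA : ∀ a ∈ A, IsAtom a) (hu : rk u = 2) (hU : 2 ≤ (A.filter (· ≤ u)).card)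
    (hmax : ∀ k, rk k = 2 → (∃ c ∈ A, c ≤ u ∧ c ≤ k) →
      (A.filter (· ≤ k)).card ≤ (A.filter (· ≤ u)).card)
    (hR : ∀ x ∈ R, x ∈ A ∧ ¬ x ≤ u ∧ Off x ∧ IsAtom (ρ (u ⊔ x)) ∧ ρ (u ⊔ x) ≠ x)
    (hadj : ∀ k, ∀ H ∈ adj k, k ≤ H ∧ ¬ u ≤ H)
    (hK : ∀ c ∈ A, c ≤ u → ∀ S : Finset L,
      (∀ k ∈ S, ∃ x ∈ A, ¬ x ≤ u ∧ Off x ∧ ¬ ρ (u ⊔ x) ≤ x ⊔ c ∧ k = x ⊔ c) →
      S.card ≤ (S.biUnion adj).card) :
    ∃ (c : L → L) (H : L → L),
      (∀ x ∈ R, c x ∈ A ∧ c x ≤ u ∧ ¬ ρ (u ⊔ x) ≤ x ⊔ c x) ∧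
      (∀ x ∈ R, ∀ y ∈ R, x ⊔ c x = y ⊔ c y → x = y) ∧
      (∀ x ∈ R, H x ∈ adj (x ⊔ c x)) ∧
      (∀ x ∈ R, ∀ y ∈ R, H x = H y → x = y) := by
  classical
  obtain ⟨c, hc, hcinj⟩ := level1 (r := fun x => ρ (u ⊔ x)) hA hu hU hmax
    (fun x hx => ⟨(hR x hx).1, (hR x hx).2.1, (hR x hx).2.2.2.1, (hR x hx).2.2.2.2⟩)
  -- Hall for the users: the planes over their rows
  have hall : ∀ S : Finset {x // x ∈ R}, S.card ≤ (S.biUnion (fun x => adj (x.1 ⊔ c x.1))).card := by
    intro S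
    -- split by colours
    set V := S.image (fun x => c x.1) with hV
    have h1 : S.card = ∑ d ∈ V, (S.filter (fun x => c x.1 = d)).card :=
      Finset.card_eq_sum_card_image _ S
    have h2 : (S.biUnion (fun x => adj (x.1 ⊔ c x.1))).card
        = ∑ d ∈ V, ((S.filter (fun x => c x.1 = d)).biUnion
            (fun x => adj (x.1 ⊔ c x.1))).card := by
      rw [← Finset.card_biUnion]
      · congr 1
        ext H
        simp only [Finset.mem_biUnion, hV, Finset.mem_image, Finset.mem_filter]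
        constructor
        · rintro ⟨x, hx, hH⟩
          exact ⟨c x.1, ⟨x, hx, rfl⟩, x, ⟨hx, rfl⟩, hH⟩
        · rintro ⟨d, -, x, ⟨hx, -⟩, hH⟩
          exact ⟨x, hx, hH⟩
      · intro d hd d' hd' hdd
        rw [Function.onFun, Finset.disjoint_left]
        intro H hH hH'
        rw [Finset.mem_biUnion] at hH hH'
        obtain ⟨x, hx, hxH⟩ := hH
        obtain ⟨y, hy, hyH⟩ := hH'
        rw [Finset.mem_filter] at hx hy
        obtain ⟨a1, a2⟩ := hadj _ H hxH
        obtain ⟨b1, -⟩ := hadj _ H hyH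
        have e1 : d ≤ H := hx.2 ▸ le_sup_right.trans a1
        have e2 : d' ≤ H := hy.2 ▸ le_sup_right.trans b1
        have f1 := hc x.1 x.2
        have f2 := hc y.1 y.2
        rw [hx.2] at f1
        rw [hy.2] at f2
        have g : d ⊔ d' = u := line_of (hA d f1.1) (hA d' f2.1) hdd f1.2.1 f2.2.1 hu
        exact a2 (g ▸ sup_le e1 e2)
    rw [h1, h2]
    refine Finset.sum_le_sum ?_
    intro d hd
    obtain ⟨x0, -, hx0⟩ := Finset.mem_image.mp hd
    have f0 := hc x0.1 x0.2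
    rw [hx0] at f0
    set T := (S.filter (fun x => c x.1 = d)).image (fun x => x.1 ⊔ c x.1) with hT
    have h3 : T.card = (S.filter (fun x => c x.1 = d)).card := by
      refine Finset.card_image_of_injOn ?_
      intro x _ y _ e
      exact Subtype.ext (hcinj x.1 x.2 y.1 y.2 e)
    have h4 : T.biUnion adj
        = (S.filter (fun x => c x.1 = d)).biUnion (fun x => adj (x.1 ⊔ c x.1)) := by
      rw [hT, Finset.image_biUnion]
    rw [← h3, ← h4]
    refine hK d f0.1 f0.2.1 T ?_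
    intro k hk
    obtain ⟨x, hx, rfl⟩ := Finset.mem_image.mp hk
    have hx2 := (Finset.mem_filter.mp hx).2
    have f1 := hc x.1 x.2
    have f2 := hR x.1 x.2
    rw [hx2] at f1
    exact ⟨x.1, f2.1, f2.2.1, f2.2.2.1, f1.2.2, by rw [hx2]⟩
  obtain ⟨f, hf, hft⟩ := (Finset.all_card_le_biUnion_card_iff_exists_injective _).mp hall
  refine ⟨c, fun x => if h : x ∈ R then f ⟨x, h⟩ else x, hc, hcinj, ?_, ?_⟩
  · intro x hx
    simp only [hx, dite_true]
    exact hft ⟨x, hx⟩
  · intro x hx y hy e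
    simp only [hx, hy, dite_true] at e
    exact congrArg Subtype.val (hf e)

/-- A set of rows of colour `c` without rows through the special points contains no complete
group. -/
theorem no_complete {A S : Finset L} {u c P : L} {ρ : L → L} {Off : L → Prop}
    (hA : ∀ a ∈ A, IsAtom a) (hu : rk u = 2) (hc : c ∈ A) (hcu : c ≤ u)
    (hS : ∀ k ∈ S, ∃ x ∈ A, ¬ x ≤ u ∧ Off x ∧ ¬ ρ (u ⊔ x) ≤ x ⊔ c ∧ k = x ⊔ c)
    (hρ : ρ P ∈ A ∧ ¬ ρ P ≤ u ∧ u ⊔ ρ P = P)
    (hall : ∀ x ∈ A, ¬ x ≤ u → u ⊔ x = P → x ⊔ c ∈ S) : False := by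
  obtain ⟨x, hx, hxu, -, hn, e⟩ := hS _ (hall (ρ P) hρ.1 hρ.2.1 hρ.2.2)
  apply hn
  have h1 : u ⊔ x = P := by
    have h2 : u ⊔ x = u ⊔ (x ⊔ c) := by
      apply le_antisymm
      · exact sup_le le_sup_left (le_sup_left.trans le_sup_right)
      · exact sup_le le_sup_left (sup_le le_sup_right (hcu.trans le_sup_left))
    have h3 : u ⊔ ρ P = u ⊔ (ρ P ⊔ c) := by
      apply le_antisymm
      · exact sup_le le_sup_left (le_sup_left.trans le_sup_right)
      · exact sup_le le_sup_left (sup_le le_sup_right (hcu.trans le_sup_left))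
    rw [h2, ← e, ← h3, hρ.2.2]
  rw [h1, ← e]
  exact le_sup_left

end Pool.Agent.Helper73.BP
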