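import Pool.Agent.Helper38.Thick.Frame

/-!
# The slack lemma for rows

`u` is a line with at least as many points as every line meeting it, `Y` is a nonempty set of
points off `u`.  Then at least `|Y| + |u| - 1` rows (lines joining a point of `Y` and a point of
`u`) meet `Y`; and at least `|Y| + (|u| - 1) * g` rows, if `Y` meets `g` planes over `u`.
-/

set_option autoImplicit false
set_option linter.unusedSectionVars false

namespace Pool.Agent.Helper73.BP

open Pool.Agent.Helper28.BPack Pool.Agent.Helper61.Motz Pool.Agent.Helper38.Thick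

/-- Abstract slack lemma: `U.card` partitions of `Y` into classes of at most `U.card - 1` elements,
two classes of different partitions have at most one common element. -/
theorem slack_abs {X K C : Type} [DecidableEq K] [DecidableEq X] [DecidableEq C]
    (Y : Finset X) (U : Finset C) (ρ : C → X → K) (hY : Y.Nonempty) (hU : U.Nonempty)
    (hinj : ∀ c ∈ U, ∀ c' ∈ U, c ≠ c' → ∀ x ∈ Y, ∀ y ∈ Y,
      ρ c x = ρ c y → ρ c' x = ρ c' y → x = y)
    (hlen : ∀ c ∈ U, ∀ x ∈ Y, (Y.filter (fun y => ρ c y = ρ c x)).card + 1 ≤ U.card) :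
    Y.card + U.card ≤ ∑ c ∈ U, (Y.image (ρ c)).card + 1 := by
  obtain ⟨⟨c0, x0⟩, h0, hmx⟩ := Finset.exists_max_image (U ×ˢ Y)
    (fun p => (Y.filter (fun y => ρ p.1 y = ρ p.1 p.2)).card) (hU.product hY)
  rw [Finset.mem_product] at h0
  obtain ⟨hc0, hx0⟩ := h0
  simp only at hc0 hx0 hmx
  set F := Y.filter (fun y => ρ c0 y = ρ c0 x0) with hF
  set l := F.card with hl
  have hl1 : 1 ≤ l := Finset.card_pos.mpr ⟨x0, Finset.mem_filter.mpr ⟨hx0, rfl⟩⟩
  have hls : l + 1 ≤ U.card := hlen c0 hc0 x0 hx0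
  have h1 : ∀ c ∈ U, Y.card ≤ l * (Y.image (ρ c)).card := by
    intro c hc
    refine Finset.card_le_mul_card_image Y l ?_
    intro k hk
    obtain ⟨x, hx, rfl⟩ := Finset.mem_image.mp hk
    exact hmx (c, x) (Finset.mem_product.mpr ⟨hc, hx⟩)
  have h2 : ∀ c ∈ U.erase c0, l ≤ (Y.image (ρ c)).card := by
    intro c hc
    rw [Finset.mem_erase] at hc
    have h3 : (F.image (ρ c)).card = l := by
      refine Finset.card_image_of_injOn ?_
      intro x hx y hy e
      have hx' := Finset.mem_filter.mp hx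
      have hy' := Finset.mem_filter.mp hy
      exact hinj c hc.2 c0 hc0 hc.1 x hx'.1 y hy'.1 e (hx'.2.trans hy'.2.symm)
    rw [← h3]
    exact Finset.card_le_card (Finset.image_subset_image (Finset.filter_subset _ _))
  have h3 : ∑ c ∈ U, (Y.image (ρ c)).card
      = (Y.image (ρ c0)).card + ∑ c ∈ U.erase c0, (Y.image (ρ c)).card :=
    (Finset.add_sum_erase U _ hc0).symm
  have h4 : (U.erase c0).card = U.card - 1 := Finset.card_erase_of_mem hc0
  have h5 : (U.card - 1) * l ≤ ∑ c ∈ U.erase c0, (Y.image (ρ c)).card := by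
    rw [← h4]
    simpa using Finset.card_nsmul_le_sum (U.erase c0) (fun c => (Y.image (ρ c)).card) l h2
  have h6 : U.card * Y.card ≤ l * ∑ c ∈ U, (Y.image (ρ c)).card := by
    rw [Finset.mul_sum]
    simpa using Finset.card_nsmul_le_sum U (fun c => l * (Y.image (ρ c)).card) Y.card h1
  have h7 := h1 c0 hc0
  obtain ⟨s, hs⟩ : ∃ s, U.card = s + 1 := ⟨U.card - 1, by omega⟩
  rw [hs] at hls h5 h6 ⊢
  rw [h3] at h6 ⊢
  set a := (Y.image (ρ c0)).card
  set b := ∑ c ∈ U.erase c0, (Y.image (ρ c)).card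
  set n := Y.card
  simp only [Nat.add_sub_cancel] at h5
  -- `1 ≤ l ≤ s`
  have hls' : l ≤ s := by omega
  zify at hl1 hls' h5 h6 h7 ⊢
  have hlpos : (0 : ℤ) < l := by linarith
  have key : (l : ℤ) * (n + s) ≤ l * (a + b) := by
    rcases le_or_gt ((l : ℤ) * l) n with h | h
    · have e1 : (0 : ℤ) ≤ (n - l * l) * (s + 1 - l) :=
        mul_nonneg (by linarith) (by linarith)
      have e2 : (0 : ℤ) ≤ l * ((l - 1) * (s - l)) :=
        mul_nonneg hlpos.le (mul_nonneg (by linarith) (by linarith))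
      nlinarith [h6, e1, e2]
    · have e1 : (0 : ℤ) ≤ (l - 1) * (l * l - n) :=
        mul_nonneg (by linarith) (by linarith)
      have e2 : (0 : ℤ) ≤ l * ((l - 1) * (s - l)) :=
        mul_nonneg hlpos.le (mul_nonneg (by linarith) (by linarith))
      have e3 : (l : ℤ) * (s * l) ≤ l * b := mul_le_mul_of_nonneg_left h5 hlpos.le
      nlinarith [h7, e1, e2, e3]
  have := le_of_mul_le_mul_left key hlpos
  linarith

variable {L : Type} [Lattice L] [BoundedOrder L] [Finite L] [IsUpperModularLattice L]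

/-- The rows (of all colours) meeting `Y`. -/
def rows [DecidableEq L] (U Y : Finset L) : Finset L :=
  (Y ×ˢ U).image (fun p => p.1 ⊔ p.2)

theorem mem_rows [DecidableEq L] {U Y : Finset L} {k : L} :
    k ∈ rows U Y ↔ ∃ x ∈ Y, ∃ c ∈ U, x ⊔ c = k := by
  simp only [rows, Finset.mem_image, Finset.mem_product, Prod.exists]
  constructor
  · rintro ⟨x, c, ⟨hx, hc⟩, e⟩
    exact ⟨x, hx, c, hc, e⟩
  · rintro ⟨x, hx, c, hc, e⟩
    exact ⟨x, c, ⟨hx, hc⟩, e⟩

/-- A row has one colour. -/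
theorem row_colour [DecidableEq L] [DecidableRel (α := L) (· ≤ ·)] {A Y : Finset L} {u : L}
    (hA : ∀ a ∈ A, IsAtom a) (hu : rk u = 2) (hY : ∀ x ∈ Y, x ∈ A ∧ ¬ x ≤ u)
    {x y c c' : L} (hx : x ∈ Y) (hc : c ∈ A) (hcu : c ≤ u) (hc' : c' ∈ A)
    (hcu' : c' ≤ u) (e : x ⊔ c = y ⊔ c') : c = c' := by
  by_contra hcc
  have hne : x ≠ c := by
    rintro rfl
    exact (hY x hx).2 hcu
  have h1 := line_two (hA c hc) (hA c' hc') hcc (le_sup_right : c ≤ x ⊔ c)
    (by rw [e]; exact le_sup_right) (rk_line (hA x (hY x hx).1) (hA c hc) hne) hcu hcu' hu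
  exact (hY x hx).2 (h1 ▸ le_sup_left)

/-- The rows of `Y`, counted by colours. -/
theorem card_rows [DecidableEq L] [DecidableRel (α := L) (· ≤ ·)] {A Y : Finset L} {u : L}
    (hA : ∀ a ∈ A, IsAtom a) (hu : rk u = 2) (hY : ∀ x ∈ Y, x ∈ A ∧ ¬ x ≤ u) :
    (rows (A.filter (· ≤ u)) Y).card
      = ∑ c ∈ A.filter (· ≤ u), (Y.image (fun x => x ⊔ c)).card := by
  have h1 : rows (A.filter (· ≤ u)) Y
      = (A.filter (· ≤ u)).biUnion (fun c => Y.image (fun x => x ⊔ c)) := by
    ext k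
    rw [mem_rows, Finset.mem_biUnion]
    constructor
    · rintro ⟨x, hx, c, hc, e⟩
      exact ⟨c, hc, Finset.mem_image.mpr ⟨x, hx, e⟩⟩
    · rintro ⟨c, hc, h⟩
      obtain ⟨x, hx, e⟩ := Finset.mem_image.mp h
      exact ⟨x, hx, c, hc, e⟩
  rw [h1, Finset.card_biUnion]
  intro c hc c' hc' hcc
  rw [Function.onFun, Finset.disjoint_left]
  intro k hk hk'
  obtain ⟨x, hx, rfl⟩ := Finset.mem_image.mp hk
  obtain ⟨y, hy, e⟩ := Finset.mem_image.mp hk'
  rw [Finset.mem_coe, Finset.mem_filter] at hc hc'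
  exact hcc (row_colour hA hu hY hx hc.1 hc.2 hc'.1 hc'.2 e.symm)

/-- **Slack lemma** (helper48).  `Y` a nonempty set of points off `u`: at least
`|Y| + |u| - 1` rows meet `Y`. -/
theorem slack [DecidableEq L] [DecidableRel (α := L) (· ≤ ·)] {A Y : Finset L} {u : L}
    (hA : ∀ a ∈ A, IsAtom a) (hu : rk u = 2) (hU : 1 ≤ (A.filter (· ≤ u)).card)
    (hmax : ∀ k, rk k = 2 → (∃ c ∈ A, c ≤ u ∧ c ≤ k) →
      (A.filter (· ≤ k)).card ≤ (A.filter (· ≤ u)).card)
    (hY : ∀ x ∈ Y, x ∈ A ∧ ¬ x ≤ u) (hne : Y.Nonempty) :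
    Y.card + (A.filter (· ≤ u)).card ≤ (rows (A.filter (· ≤ u)) Y).card + 1 := by
  rw [card_rows hA hu hY]
  have hnec : ∀ x ∈ Y, ∀ c, c ≤ u → x ≠ c := by
    rintro x hx c hc rfl
    exact (hY x hx).2 hc
  refine slack_abs Y (A.filter (· ≤ u)) (fun c x => x ⊔ c) hne (Finset.card_pos.mp hU) ?_ ?_
  · intro c hc c' hc' hcc x hx y hy e e'
    rw [Finset.mem_filter] at hc hc'
    by_contra hxy
    have h1 := line_two (hA x (hY x hx).1) (hA y (hY y hy).1) hxy
      (le_sup_left : x ≤ x ⊔ c) (by rw [show x ⊔ c = y ⊔ c from e]; exact le_sup_left)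
      (rk_line (hA x (hY x hx).1) (hA c hc.1) (hnec x hx c hc.2))
      (le_sup_left : x ≤ x ⊔ c') (by rw [show x ⊔ c' = y ⊔ c' from e']; exact le_sup_left)
      (rk_line (hA x (hY x hx).1) (hA c' hc'.1) (hnec x hx c' hc'.2))
    exact hcc (row_colour hA hu hY hx hc.1 hc.2 hc'.1 hc'.2 h1)
  · intro c hc x hx
    rw [Finset.mem_filter] at hc
    have h2 := rk_line (hA x (hY x hx).1) (hA c hc.1) (hnec x hx c hc.2)
    refine le_trans ?_ (hmax (x ⊔ c) h2 ⟨c, hc.1, hc.2, le_sup_right⟩)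
    have hnot : c ∉ Y.filter (fun y => y ⊔ c = x ⊔ c) := by
      intro h
      exact (hY c (Finset.mem_filter.mp h).1).2 hc.2
    rw [← Finset.card_insert_of_notMem hnot]
    refine Finset.card_le_card ?_
    intro z hz
    rw [Finset.mem_insert, Finset.mem_filter] at hz
    rw [Finset.mem_filter]
    rcases hz with rfl | ⟨hz1, hz2⟩
    · exact ⟨hc.1, le_sup_right⟩
    · exact ⟨(hY z hz1).1, hz2 ▸ le_sup_left⟩

/-- **Slack lemma for several groups.**  At least `|Y| + (|u| - 1) * g` rows meet `Y`, where `g`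
is the number of planes over `u` with a point of `Y`. -/
theorem slack_groups [DecidableEq L] [DecidableRel (α := L) (· ≤ ·)] {A Y : Finset L} {u : L}
    (hA : ∀ a ∈ A, IsAtom a) (hu : rk u = 2) (hU : 1 ≤ (A.filter (· ≤ u)).card)
    (hmax : ∀ k, rk k = 2 → (∃ c ∈ A, c ≤ u ∧ c ≤ k) →
      (A.filter (· ≤ k)).card ≤ (A.filter (· ≤ u)).card)
    (hY : ∀ x ∈ Y, x ∈ A ∧ ¬ x ≤ u) :
    Y.card + ((A.filter (· ≤ u)).card - 1) * (Y.image (fun x => u ⊔ x)).card
      ≤ (rows (A.filter (· ≤ u)) Y).card := by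
  set U := A.filter (· ≤ u) with hUdef
  have hnec : ∀ x ∈ Y, ∀ c, c ≤ u → x ≠ c := by
    rintro x hx c hc rfl
    exact (hY x hx).2 hc
  -- the rows are divided among the groups
  have h1 : rows U Y = (Y.image (fun x => u ⊔ x)).biUnion
      (fun P => rows U (Y.filter (fun x => u ⊔ x = P))) := by
    ext k
    rw [mem_rows, Finset.mem_biUnion]
    constructor
    · rintro ⟨x, hx, c, hc, e⟩
      exact ⟨u ⊔ x, Finset.mem_image_of_mem _ hx,
        mem_rows.mpr ⟨x, Finset.mem_filter.mpr ⟨hx, rfl⟩, c, hc, e⟩⟩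
    · rintro ⟨P, -, h⟩
      obtain ⟨x, hx, c, hc, e⟩ := mem_rows.mp h
      exact ⟨x, (Finset.mem_filter.mp hx).1, c, hc, e⟩
  have h2 : (rows U Y).card = ∑ P ∈ Y.image (fun x => u ⊔ x),
      (rows U (Y.filter (fun x => u ⊔ x = P))).card := by
    rw [h1, Finset.card_biUnion]
    intro P hP Q hQ hPQ
    rw [Function.onFun, Finset.disjoint_left]
    intro k hk hk'
    obtain ⟨x, hx, c, hc, e⟩ := mem_rows.mp hk
    obtain ⟨y, hy, c', hc', e'⟩ := mem_rows.mp hk'
    rw [Finset.mem_filter] at hx hy hc hc'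
    apply hPQ
    rw [← hx.2, ← hy.2]
    have h3 : u ⊔ x = u ⊔ k := by
      rw [← e]
      apply le_antisymm
      · exact sup_le le_sup_left (le_sup_left.trans le_sup_right)
      · exact sup_le le_sup_left (sup_le le_sup_right (hc.2.trans le_sup_left))
    have h4 : u ⊔ y = u ⊔ k := by
      rw [← e']
      apply le_antisymm
      · exact sup_le le_sup_left (le_sup_left.trans le_sup_right)
      · exact sup_le le_sup_left (sup_le le_sup_right (hc'.2.trans le_sup_left))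
    rw [h3, h4]
  have h3 : Y.card = ∑ P ∈ Y.image (fun x => u ⊔ x),
      (Y.filter (fun x => u ⊔ x = P)).card :=
    Finset.card_eq_sum_card_image _ Y
  have h4 : (U.card - 1) * (Y.image (fun x => u ⊔ x)).card
      = ∑ _P ∈ Y.image (fun x => u ⊔ x), (U.card - 1) := by
    rw [Finset.sum_const, smul_eq_mul, mul_comm]
  rw [h2, h4]
  calc Y.card + ∑ _P ∈ Y.image (fun x => u ⊔ x), (U.card - 1)
      = ∑ P ∈ Y.image (fun x => u ⊔ x), ((Y.filter (fun x => u ⊔ x = P)).card + (U.card - 1)) := by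
        rw [Finset.sum_add_distrib, ← h3]
    _ ≤ _ := by
        refine Finset.sum_le_sum ?_
        intro P hP
        obtain ⟨x, hx, rfl⟩ := Finset.mem_image.mp hP
        have h5 := slack (Y := Y.filter (fun y => u ⊔ y = u ⊔ x)) hA hu hU hmax
          (fun y hy => hY y (Finset.mem_filter.mp hy).1)
          ⟨x, Finset.mem_filter.mpr ⟨hx, rfl⟩⟩
        rw [← hUdef] at h5
        have h6 : 1 ≤ U.card := hU
        omega

end Pool.Agent.Helper73.BP
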