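import Pool.Agent.Helper73.BP.Slack

/-!
# The equality case of the slack lemma for rows
-/

set_option autoImplicit false
set_option linter.unusedSectionVars false

namespace Pool.Agent.Helper73.BP

open Pool.Agent.Helper28.BPack Pool.Agent.Helper61.Motz Pool.Agent.Helper38.Thick

/-- Equality in the abstract slack lemma. -/
theorem slack_abs_eq {X K C : Type} [DecidableEq K] [DecidableEq X] [DecidableEq C]
    (Y : Finset X) (U : Finset C) (ρ : C → X → K) (hY : Y.Nonempty) (hU : U.Nonempty)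
    (hinj : ∀ c ∈ U, ∀ c' ∈ U, c ≠ c' → ∀ x ∈ Y, ∀ y ∈ Y,
      ρ c x = ρ c y → ρ c' x = ρ c' y → x = y)
    (hlen : ∀ c ∈ U, ∀ x ∈ Y, (Y.filter (fun y => ρ c y = ρ c x)).card + 1 ≤ U.card)
    (hE : ∑ c ∈ U, (Y.image (ρ c)).card + 1 ≤ Y.card + U.card) :
    Y.card = 1 ∨ (Y.card = (U.card - 1) ^ 2 ∧ ∀ c ∈ U, ∀ x ∈ Y,
      (Y.filter (fun y => ρ c y = ρ c x)).card = U.card - 1) := by
  obtain ⟨⟨c0, x0⟩, h0, hmx⟩ := Finset.exists_max_image (U ×ˢ Y)
    (fun p => (Y.filter (fun y => ρ p.1 y = ρ p.1 p.2)).card) (hU.product hY)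
  rw [Finset.mem_product] at h0
  obtain ⟨hc0, hx0⟩ := h0
  simp only at hc0 hx0 hmx
  set F := Y.filter (fun y => ρ c0 y = ρ c0 x0) with hF
  set l := F.card with hl
  have hl1 : 1 ≤ l := Finset.card_pos.mpr ⟨x0, Finset.mem_filter.mpr ⟨hx0, rfl⟩⟩
  have hls : l + 1 ≤ U.card := hlen c0 hc0 x0 hx0
  have h1 : ∀ c ∈ U, Y.card ≤ l * (Y.image (ρ c)).card := by
    intro c hc
    refine Finset.card_le_mul_card_image Y l ?_
    intro k hk
    obtain ⟨x, hx, rfl⟩ := Finset.mem_image.mp hk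
    exact hmx (c, x) (Finset.mem_product.mpr ⟨hc, hx⟩)
  have h2 : ∀ c ∈ U.erase c0, l ≤ (Y.image (ρ c)).card := by
    intro c hc
    rw [Finset.mem_erase] at hc
    have h3 : (F.image (ρ c)).card = l := by
      refine Finset.card_image_of_injOn ?_
      intro x hx y hy e
      have hx' := Finset.mem_filter.mp hx
      have hy' := Finset.mem_filter.mp hy
      exact hinj c hc.2 c0 hc0 hc.1 x hx'.1 y hy'.1 e (hx'.2.trans hy'.2.symm)
    rw [← h3]
    exact Finset.card_le_card (Finset.image_subset_image (Finset.filter_subset _ _))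
  have h3 : ∑ c ∈ U, (Y.image (ρ c)).card
      = (Y.image (ρ c0)).card + ∑ c ∈ U.erase c0, (Y.image (ρ c)).card :=
    (Finset.add_sum_erase U _ hc0).symm
  have h4 : (U.erase c0).card = U.card - 1 := Finset.card_erase_of_mem hc0
  have h5 : (U.card - 1) * l ≤ ∑ c ∈ U.erase c0, (Y.image (ρ c)).card := by
    rw [← h4]
    simpa using Finset.card_nsmul_le_sum (U.erase c0) (fun c => (Y.image (ρ c)).card) l h2
  have h6 : U.card * Y.card ≤ l * ∑ c ∈ U, (Y.image (ρ c)).card := by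
    rw [Finset.mul_sum]
    simpa using Finset.card_nsmul_le_sum U (fun c => l * (Y.image (ρ c)).card) Y.card h1
  have h7 := h1 c0 hc0
  have hn1 : 1 ≤ Y.card := Finset.card_pos.mpr hY
  obtain ⟨s, hs⟩ : ∃ s, U.card = s + 1 := ⟨U.card - 1, by omega⟩
  have hls' : l ≤ s := by omega
  -- the two equalities
  have hT : ∑ c ∈ U, (Y.image (ρ c)).card ≤ Y.card + s := by omega
  have key : Y.card = l * l ∧ (l = 1 ∨ l = s) := by
    rw [h3] at h6 hT
    rw [hs] at h5 h6
    simp only [Nat.add_sub_cancel] at h5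
    generalize (Y.image (ρ c0)).card = a at h6 hT h7
    generalize ∑ c ∈ U.erase c0, (Y.image (ρ c)).card = b at h5 h6 hT
    generalize Y.card = n at h6 hT h7 hn1 ⊢
    clear_value l
    clear hmx h1 h2 h3 h4 hls hlen hE
    zify at hl1 hls' h5 h6 h7 hT hn1
    have hlpos : (0 : ℤ) < l := by linarith
    have hT' : (l : ℤ) * (a + b) ≤ l * (n + s) := mul_le_mul_of_nonneg_left hT hlpos.le
    rcases le_or_gt ((l : ℤ) * l) n with h | h
    · have e1 : (0 : ℤ) ≤ (n - l * l) * (s - l) := mul_nonneg (by linarith) (by linarith)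
      have e2 : (0 : ℤ) ≤ l * ((l - 1) * (s - l)) :=
        mul_nonneg hlpos.le (mul_nonneg (by linarith) (by linarith))
      have e3 : (n : ℤ) - l * l = 0 := by nlinarith [h6, hT', e1, e2]
      have e4 : (l : ℤ) * ((l - 1) * (s - l)) = 0 := by
        have : (l : ℤ) * ((l - 1) * (s - l)) ≤ 0 := by nlinarith [h6, hT', e1, e2, e3]
        linarith
      refine ⟨by zify; linarith, ?_⟩
      rcases mul_eq_zero.mp e4 with e5 | e5
      · omega
      · rcases mul_eq_zero.mp e5 with e6 | e6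
        · left; omega
        · right; omega
    · exfalso
      have e1 : (0 : ℤ) ≤ (l - 1) * (l * l - n) :=
        mul_nonneg (by linarith) (by linarith)
      have e2 : (0 : ℤ) ≤ l * ((l - 1) * (s - l)) :=
        mul_nonneg hlpos.le (mul_nonneg (by linarith) (by linarith))
      have e3 : (l : ℤ) * (s * l) ≤ l * b := mul_le_mul_of_nonneg_left h5 hlpos.le
      have e4 : (l - 1 : ℤ) * (l * l - n) ≤ 0 := by nlinarith [h7, e1, e2, e3, hT']
      have e5 : (l - 1 : ℤ) * (l * l - n) = 0 := le_antisymm e4 e1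
      rcases mul_eq_zero.mp e5 with e6 | e6
      · have e7 : (l : ℤ) = 1 := by linarith
        rw [e7] at h
        linarith
      · linarith
  obtain ⟨k1, k2⟩ := key
  rcases k2 with k2 | k2
  · left
    rw [k1, k2]
  · right
    have hsU : U.card - 1 = s := by omega
    rw [hsU]
    refine ⟨by rw [k1, k2, sq], ?_⟩
    have hspos : 0 < s := by omega
    -- every colour has exactly `s` classes
    have g1 : ∀ c ∈ U, s ≤ (Y.image (ρ c)).card := by
      intro c hc
      have := h1 c hc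
      rw [k1, k2] at this
      exact Nat.le_of_mul_le_mul_left this hspos
    have g2 : ∑ c ∈ U, (Y.image (ρ c)).card ≤ ∑ _c ∈ U, s := by
      rw [Finset.sum_const, smul_eq_mul, hs]
      rw [k1, k2] at hT
      nlinarith [hT]
    have g3 : ∀ c ∈ U, s = (Y.image (ρ c)).card :=
      (Finset.sum_eq_sum_iff_of_le g1).mp (le_antisymm (Finset.sum_le_sum g1) g2)
    intro c hc x hx
    have g4 : ∀ k ∈ Y.image (ρ c), (Y.filter (fun y => ρ c y = k)).card ≤ s := by
      intro k hk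
      obtain ⟨z, hz, rfl⟩ := Finset.mem_image.mp hk
      have := hlen c hc z hz
      omega
    have g5 : Y.card = ∑ k ∈ Y.image (ρ c), (Y.filter (fun y => ρ c y = k)).card :=
      Finset.card_eq_sum_card_image _ Y
    have g6 : ∑ k ∈ Y.image (ρ c), (Y.filter (fun y => ρ c y = k)).card
        = ∑ _k ∈ Y.image (ρ c), s := by
      rw [← g5, Finset.sum_const, smul_eq_mul, ← g3 c hc, k1, k2]
    exact (Finset.sum_eq_sum_iff_of_le g4).mp g6 (ρ c x) (Finset.mem_image_of_mem _ hx)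

variable {L : Type} [Lattice L] [BoundedOrder L] [Finite L] [IsUpperModularLattice L]

/-- **Equality in the slack lemma**: `Y` is one point, or a full affine plane of order
`|u| - 1`. -/
theorem slack_eq [DecidableEq L] [DecidableRel (α := L) (· ≤ ·)] {A Y : Finset L} {u : L}
    (hA : ∀ a ∈ A, IsAtom a) (hu : rk u = 2) (hU : 1 ≤ (A.filter (· ≤ u)).card)
    (hmax : ∀ k, rk k = 2 → (∃ c ∈ A, c ≤ u ∧ c ≤ k) →
      (A.filter (· ≤ k)).card ≤ (A.filter (· ≤ u)).card)
    (hY : ∀ x ∈ Y, x ∈ A ∧ ¬ x ≤ u) (hne : Y.Nonempty)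
    (hE : (rows (A.filter (· ≤ u)) Y).card + 1 ≤ Y.card + (A.filter (· ≤ u)).card) :
    Y.card = 1 ∨ (Y.card = ((A.filter (· ≤ u)).card - 1) ^ 2 ∧
      ∀ c ∈ A, c ≤ u → ∀ x ∈ Y,
        (Y.filter (fun y => y ⊔ c = x ⊔ c)).card = (A.filter (· ≤ u)).card - 1) := by
  rw [card_rows hA hu hY] at hE
  have hnec : ∀ x ∈ Y, ∀ c, c ≤ u → x ≠ c := by
    rintro x hx c hc rfl
    exact (hY x hx).2 hc
  have h := slack_abs_eq Y (A.filter (· ≤ u)) (fun c x => x ⊔ c) hne (Finset.card_pos.mp hU) ?_ ?_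
    hE
  · rcases h with h | ⟨h, h'⟩
    · exact Or.inl h
    · exact Or.inr ⟨h, fun c hc hcu x hx => h' c (Finset.mem_filter.mpr ⟨hc, hcu⟩) x hx⟩
  · intro c hc c' hc' hcc x hx y hy e e'
    rw [Finset.mem_filter] at hc hc'
    by_contra hxy
    have h1 := line_two (hA x (hY x hx).1) (hA y (hY y hy).1) hxy
      (le_sup_left : x ≤ x ⊔ c) (by rw [show x ⊔ c = y ⊔ c from e]; exact le_sup_left)
      (rk_line (hA x (hY x hx).1) (hA c hc.1) (hnec x hx c hc.2))
      (le_sup_left : x ≤ x ⊔ c') (by rw [show x ⊔ c' = y ⊔ c' from e']; exact le_sup_left)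
      (rk_line (hA x (hY x hx).1) (hA c' hc'.1) (hnec x hx c' hc'.2))
    exact hcc (row_colour hA hu hY hx hc.1 hc.2 hc'.1 hc'.2 h1)
  · intro c hc x hx
    rw [Finset.mem_filter] at hc
    have h2 := rk_line (hA x (hY x hx).1) (hA c hc.1) (hnec x hx c hc.2)
    refine le_trans ?_ (hmax (x ⊔ c) h2 ⟨c, hc.1, hc.2, le_sup_right⟩)
    have hnot : c ∉ Y.filter (fun y => y ⊔ c = x ⊔ c) := by
      intro h
      exact (hY c (Finset.mem_filter.mp h).1).2 hc.2
    rw [← Finset.card_insert_of_notMem hnot]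
    refine Finset.card_le_card ?_
    intro z hz
    rw [Finset.mem_insert, Finset.mem_filter] at hz
    rw [Finset.mem_filter]
    rcases hz with rfl | ⟨hz1, hz2⟩
    · exact ⟨hc.1, le_sup_right⟩
    · exact ⟨(hY z hz1).1, hz2 ▸ le_sup_left⟩

end Pool.Agent.Helper73.BP
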